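import Pool.Agent.H599.EX.Stm
import Pool.Agent.H599.FF2

set_option autoImplicit false

/-!
# YW: the points whose orbit begins with words of `W` only
-/

open Polynomial Filter Topology
open scoped ENNReal NNReal
open Pool.Agent.H599.Tor

namespace Pool.Agent.H599.EX

namespace YWaux

variable {F : Type} [Field F]

lemma mul_mul (A B : F[X]) (x : Torus F) : mul (A * B) x = mul A (mul B x) := by
  apply Torus.ext
  rw [mul_digit, mul_digit, mul_digit, Pool.Agent.H599.FF.ml_mul]

lemma mul_one' (x : Torus F) : mul (1 : F[X]) x = x := by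
  apply Torus.ext
  funext n
  unfold mul
  simp

/-- division: `x`, `y` agree in the first `D` digits, `B x`, `B y` in the first `M` digits -/
lemma step (B : F[X]) (hB : B ≠ 0) (M : ℕ) (x y : Torus F)
    (h0 : ∀ i < B.natDegree, x.digit i = y.digit i)
    (h1 : ∀ i < M, (mul B x).digit i = (mul B y).digit i) :
    ∀ i < B.natDegree + M, x.digit i = y.digit i := by
  intro i
  induction i using Nat.strong_induction_on with
  | _ m ih =>
    intro hm
    by_cases hlt : m < B.natDegree
    · exact h0 m hlt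
    obtain ⟨j, rfl⟩ : ∃ j, m = j + B.natDegree := ⟨m - B.natDegree, by omega⟩
    have hj : j < M := by omega
    have h2 := h1 j hj
    unfold mul at h2
    simp only at h2
    rw [Finset.sum_range_succ, Finset.sum_range_succ] at h2
    have h3 : ∑ i ∈ Finset.range B.natDegree, B.coeff i * x.digit (j + i)
        = ∑ i ∈ Finset.range B.natDegree, B.coeff i * y.digit (j + i) := by
      refine Finset.sum_congr rfl fun i hi => ?_
      have hi' := Finset.mem_range.1 hi
      rw [ih (j + i) (by omega) (by omega)]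
    rw [h3] at h2
    have h4 := add_left_cancel h2
    exact mul_left_cancel₀ (by
      rw [Polynomial.coeff_natDegree]
      exact Polynomial.leadingCoeff_ne_zero.2 hB) h4

/-- the coding -/
lemma coding (A : F[X]) (hA : A ≠ 0) (n : ℕ) : ∀ (k : ℕ) (x y : Torus F),
    (∀ j < k, ∀ i < A.natDegree * n,
      (mul (A ^ (n * j)) x).digit i = (mul (A ^ (n * j)) y).digit i) →
    ∀ i < A.natDegree * n * k, x.digit i = y.digit i := by
  intro k
  induction k with
  | zero => intro x y _ i hi; simp at hi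
  | succ k ih =>
    intro x y h i hi
    have hdeg : (A ^ n).natDegree = A.natDegree * n := by
      rw [Polynomial.natDegree_pow]; ring
    refine step (A ^ n) (pow_ne_zero _ hA) (A.natDegree * n * k) x y ?_ ?_ i ?_
    · intro i hi
      rw [hdeg] at hi
      have h1 := h 0 (Nat.succ_pos k) i hi
      rw [Nat.mul_zero, pow_zero, mul_one', mul_one'] at h1
      exact h1
    · refine ih (mul (A ^ n) x) (mul (A ^ n) y) fun j hj i hi => ?_
      have h1 := h (j + 1) (Nat.succ_lt_succ hj) i hi
      rw [Nat.mul_succ, pow_add, mul_mul, mul_mul] at h1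
      exact h1
    · rw [hdeg]
      calc i < A.natDegree * n * (k + 1) := hi
        _ = _ := by ring

end YWaux

open YWaux in
theorem t_YW : S_YW := by
  intro F _ _ A hA n hn W s hW
  classical
  have hA0 : A ≠ 0 := by
    rintro rfl
    simp at hA
  have hq : (1 : ℝ) < Fintype.card F := by exact_mod_cast Fintype.one_lt_card
  have hq0 : (0 : ℝ) < Fintype.card F := by linarith
  have hqi0 : (0:ℝ) < (Fintype.card F : ℝ)⁻¹ := by positivity
  have hqi1 : (Fintype.card F : ℝ)⁻¹ < 1 := inv_lt_one_of_one_lt₀ hq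
  set X : Set (Torus F) :=
    {x : Torus F | ∀ m : ℕ, (fun i : Fin (A.natDegree * n) => (mul (A ^ m) x).digit i) ∈ W} with hX
  have hD : 1 ≤ A.natDegree * n := Nat.mul_pos hA hn
  -- the codes
  let e : ∀ k : ℕ, (Fin k → ↥W) ≃ Fin (Nat.card (Fin k → ↥W)) := fun k => Finite.equivFin _
  have hcard : ∀ k, Nat.card (Fin k → ↥W) = W.ncard ^ k := by
    intro k
    rw [Nat.card_fun, Nat.card_fin, Nat.card_coe_set_eq]
  let t : ∀ k : ℕ, Fin (Nat.card (Fin k → ↥W)) → Set (Torus F) := fun k a =>
    {x | ∀ j : Fin k, (fun i : Fin (A.natDegree * n) => (mul (A ^ (n * (j : ℕ))) x).digit i) =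
      (((e k).symm a j : ↥W) : Fin (A.natDegree * n) → F)}
  refine Pool.Agent.H599.FF2.dimH_le_of_covers X (Fintype.card F : ℝ) hq s
    (fun k => Nat.card (Fin k → ↥W)) (fun k => A.natDegree * n * k) ?_ t ?_ ?_ ?_
  · exact tendsto_id.const_mul_atTop' hD
  · intro k a
    refine Metric.ediam_le fun x hx y hy => ?_
    rw [edist_dist]
    apply ENNReal.ofReal_le_ofReal
    have h1 : dist x y ≤ ((Fintype.card F : ℝ)⁻¹) ^ (A.natDegree * n * k + 1) := by
      refine (distance_le x y _).2 ?_
      refine coding A hA0 n k x y fun j hj i hi => ?_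
      have h2 := congrFun ((hx ⟨j, hj⟩).trans (hy ⟨j, hj⟩).symm) ⟨i, hi⟩
      exact h2
    exact h1.trans (pow_le_pow_of_le_one hqi0.le hqi1.le (Nat.le_succ _))
  · intro k x hx
    rw [Set.mem_iUnion]
    refine ⟨e k (fun j => ⟨_, hx (n * (j : ℕ))⟩), fun j => ?_⟩
    rw [Equiv.symm_apply_apply]
  · refine Frequently.of_forall fun k => ?_
    rw [hcard]
    push_cast
    have h1 : ((W.ncard : ℝ)) * (((Fintype.card F : ℝ)⁻¹) ^ (A.natDegree * n)) ^ (s : ℝ) ≤ 1 := by
      rw [← Real.rpow_natCast, ← Real.rpow_mul hqi0.le, Real.inv_rpow hq0.le]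
      rw [mul_inv_le_iff₀ (Real.rpow_pos_of_pos hq0 _), one_mul]
      rw [mul_comm ((A.natDegree * n : ℕ) : ℝ) (s : ℝ)]
      exact hW.le
    have h2 : (((Fintype.card F : ℝ)⁻¹) ^ (A.natDegree * n * k)) ^ (s : ℝ)
        = ((((Fintype.card F : ℝ)⁻¹) ^ (A.natDegree * n)) ^ (s : ℝ)) ^ k := by
      rw [pow_mul, ← Real.rpow_natCast _ k, ← Real.rpow_mul (by positivity),
        ← Real.rpow_natCast _ k, ← Real.rpow_mul (by positivity), mul_comm (k : ℝ) (s : ℝ)]
    rw [h2, ← mul_pow]
    exact pow_le_one₀ (by positivity) h1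

end Pool.Agent.H599.EX
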