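import Pool.Agent.H599.PR.FIN
import Pool.Agent.H599.EX.YW

set_option autoImplicit false

/-!
# The dimension of the exceptional set: assembly
-/

open Polynomial Filter Topology
open scoped ENNReal NNReal
open Pool.Agent.H599.Tor Pool.Agent.H599.UP Pool.Agent.H599.SP Pool.Agent.H599.PR.FIN

namespace Pool.Agent.H599.EX.FIN

variable {F : Type} [Field F] [Fintype F]

/-- the closure of an orbit is invariant -/
lemma inv_closure (A : F[X]) (x : Torus F) : ∀ y ∈ closure (orb A x), mul A y ∈ closure (orb A x) := by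
  intro y hy
  have hq : (1 : ℝ) < Fintype.card F := by exact_mod_cast Fintype.one_lt_card
  have hq0 : (0 : ℝ) < (Fintype.card F : ℝ)⁻¹ := by positivity
  rw [Metric.mem_closure_iff] at hy ⊢
  intro ε hε
  obtain ⟨L, hL⟩ := exists_pow_lt_of_lt_one hε (inv_lt_one_of_one_lt₀ hq)
  obtain ⟨z, ⟨n, rfl⟩, hz2⟩ := hy (((Fintype.card F : ℝ)⁻¹) ^ (L + A.natDegree + 1)) (by positivity)
  have h1 := (distance_le y _ (L + A.natDegree)).1 hz2.le
  refine ⟨mul (A ^ (n + 1)) x, ⟨n + 1, rfl⟩, ?_⟩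
  have h2 : distance (mul A y) (mul (A ^ (n + 1)) x) ≤ ((Fintype.card F : ℝ)⁻¹) ^ (L + 1) := by
    rw [distance_le]
    intro i hi
    rw [pow_succ', Pool.Agent.H599.EX.YWaux.mul_mul]
    show ∑ j ∈ Finset.range (A.natDegree + 1), A.coeff j * y.digit (i + j) =
      ∑ j ∈ Finset.range (A.natDegree + 1), A.coeff j * (mul (A ^ n) x).digit (i + j)
    refine Finset.sum_congr rfl fun j hj => ?_
    rw [h1 (i + j) (by have := Finset.mem_range.1 hj; omega)]
  refine lt_of_le_of_lt h2 (lt_of_le_of_lt ?_ hL)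
  exact pow_le_pow_of_le_one hq0.le (inv_lt_one_of_one_lt₀ hq).le (Nat.le_succ _)

/-- the upper bound for one polynomial -/
theorem upper_one (hFUR : S_FUR) (hYW : S_YW) (A : F[X]) (hA : 1 ≤ A.natDegree) (s : ℝ≥0) :
    dimH {x : Torus F | dimH (closure (orb A x)) < s} ≤ s := by
  classical
  let ι := Σ n : {n : ℕ // 1 ≤ n}, {W : Set (Fin (A.natDegree * n.1) → F) //
    (W.ncard : ℝ) < (Fintype.card F : ℝ) ^ ((s : ℝ) * (A.natDegree * n.1 : ℕ))}
  have hsub : {x : Torus F | dimH (closure (orb A x)) < s} ⊆ ⋃ i : ι,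
      {x : Torus F | ∀ m : ℕ, (fun j : Fin (A.natDegree * i.1.1) => (mul (A ^ m) x).digit j) ∈ i.2.1} := by
    intro x hx
    obtain ⟨n, hn, hlt⟩ := hFUR F A hA (closure (orb A x)) isClosed_closure (inv_closure A x) s hx
    refine Set.mem_iUnion.2 ⟨⟨⟨n, hn⟩, ⟨_, hlt⟩⟩, fun m => ?_⟩
    exact ⟨mul (A ^ m) x, subset_closure ⟨m, rfl⟩, fun _ => rfl⟩
  refine (dimH_mono hsub).trans ?_
  rw [dimH_iUnion]
  exact iSup_le fun i => hYW F A hA i.1.1 i.1.2 i.2.1 s i.2.2

/-- the rational elements are countable -/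
lemma countable_rat : {x : Torus F | ¬ Tor.Irrational x}.Countable := by
  classical
  have hsub : {x : Torus F | ¬ Tor.Irrational x} ⊆
      ⋃ B : {B : F[X] // B ≠ 0}, {x : Torus F | ∀ n, (mul B.1 x).digit n = 0} := by
    intro x hx
    have hx' : ¬ ∀ B : F[X], B ≠ 0 → ∃ n, (mul B x).digit n ≠ 0 := hx
    push Not at hx'
    obtain ⟨B, hB, h⟩ := hx'
    exact Set.mem_iUnion.2 ⟨⟨B, hB⟩, h⟩
  have : Countable F[X] := Cardinal.mk_le_aleph0_iff.1
    ((Polynomial.cardinalMk_le_max).trans (max_le Cardinal.mk_le_aleph0 le_rfl))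
  refine Set.Countable.mono hsub (Set.countable_iUnion fun B => ?_)
  have hinj : Set.InjOn (fun x : Torus F => fun i : Fin B.1.natDegree => x.digit i)
      {x : Torus F | ∀ n, (mul B.1 x).digit n = 0} := by
    intro x hx y hy hxy
    apply Torus.ext
    funext i
    refine Pool.Agent.H599.EX.YWaux.step B.1 B.2 (i + 1) x y (fun j hj => congrFun hxy ⟨j, hj⟩)
      (fun j _ => ?_) i (by omega)
    rw [hx j, hy j]
  exact (Set.Finite.of_finite_image (Set.toFinite _) hinj).countable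

omit [Fintype F] in
/-- elements supported on the residues below `r` -/
lemma dec_sup (Q r : ℕ) (x : Torus F) (hx : x ∈ Sup (F := F) Q (Finset.range r)) :
    decimations x Q ≤ r + 1 := by
  classical
  have hsub : {y : ℕ → F | ∃ r < Q, y = fun n => x.digit (Q * n + r)} ⊆
      insert (fun _ => 0) ((fun r : ℕ => fun n : ℕ => x.digit (Q * n + r)) ''
        ((Finset.range r : Finset ℕ) : Set ℕ)) := by
    rintro y ⟨r', hr', rfl⟩
    by_cases h : r' < r
    · exact Set.mem_insert_of_mem _ ⟨r', by simpa using h, rfl⟩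
    · have e : (fun n => x.digit (Q * n + r')) = fun _ => 0 := by
        funext n
        apply hx
        rw [Nat.mul_add_mod, Nat.mod_eq_of_lt hr', Finset.mem_range]
        exact h
      rw [e]
      exact Set.mem_insert _ _
  have hfin : ((Finset.range r : Finset ℕ) : Set ℕ).Finite := Finset.finite_toSet _
  unfold decimations
  refine (Set.ncard_le_ncard hsub ((hfin.image _).insert _)).trans ?_
  refine (Set.ncard_insert_le _ _).trans (Nat.add_le_add_right ?_ 1)
  refine (Set.ncard_image_le hfin).trans ?_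
  rw [Set.ncard_coe_finset, Finset.card_range]

/-- the lower bound, simultaneously for all families of polynomials -/
theorem lower (hLB : S_LB) (s : ℝ) (hs : s ≤ 1) :
    ENNReal.ofReal s ≤ dimH {x : Torus F | ∀ (m : ℕ) (A : Fin m → F[X]),
      dimH (closure (orbit A x)) < ENNReal.ofReal s} := by
  classical
  obtain ⟨p, hpF⟩ := CharP.exists F
  have : Fact p.Prime := ⟨CharP.char_is_prime F p⟩
  have hp : 2 ≤ p := (Fact.out : p.Prime).two_le
  have key : ∀ k : ℕ, ENNReal.ofReal (s - 2 * ((p : ℝ) ^ k)⁻¹) ≤ dimH {x : Torus F |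
      ∀ (m : ℕ) (A : Fin m → F[X]), dimH (closure (orbit A x)) < ENNReal.ofReal s} := by
    intro k
    have hpk : (0:ℝ) < (p : ℝ) ^ k := by positivity
    have hQ : 0 < p ^ k := by positivity
    rcases le_or_gt (s * (p : ℝ) ^ k) 1 with h1 | h1
    · have : s - 2 * ((p : ℝ) ^ k)⁻¹ ≤ 0 := by
        have h2 : s ≤ ((p : ℝ) ^ k)⁻¹ := by
          rw [← one_div, le_div_iff₀ hpk]
          exact h1
        have h3 : 0 < ((p : ℝ) ^ k)⁻¹ := by positivity
        linarith
      rw [ENNReal.ofReal_of_nonpos this]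
      exact bot_le
    · obtain ⟨r, hr1, hr2⟩ : ∃ r : ℕ, ((r : ℝ) + 1 < s * (p : ℝ) ^ k) ∧ s * (p : ℝ) ^ k ≤ (r : ℝ) + 2 := by
        have h2 : 2 ≤ ⌈s * (p : ℝ) ^ k⌉₊ := by
          have := Nat.lt_ceil.2 (show ((1 : ℕ) : ℝ) < s * (p : ℝ) ^ k by exact_mod_cast h1)
          omega
        obtain ⟨r, hr⟩ : ∃ r, ⌈s * (p : ℝ) ^ k⌉₊ = r + 2 := ⟨_, (Nat.sub_add_cancel h2).symm⟩
        refine ⟨r, ?_, ?_⟩
        · have := Nat.lt_ceil.1 (show r + 1 < ⌈s * (p : ℝ) ^ k⌉₊ by omega)
          exact_mod_cast this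
        · have := Nat.le_ceil (s * (p : ℝ) ^ k)
          rw [hr] at this
          exact_mod_cast this
      have hrQ : r < p ^ k := by
        have h3 : (r : ℝ) + 1 < (p : ℝ) ^ k := by
          refine lt_of_lt_of_le hr1 ?_
          nlinarith
        have h4 : ((r + 1 : ℕ) : ℝ) < ((p ^ k : ℕ) : ℝ) := by
          push_cast
          exact h3
        have := Nat.cast_lt.1 h4
        omega
      have h5 := hLB F (p ^ k) (Finset.range r) hQ (fun i hi => lt_trans (Finset.mem_range.1 hi) hrQ)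
      have hsub : Sup (F := F) (p ^ k) (Finset.range r) ⊆ {x : Torus F |
          ∀ (m : ℕ) (A : Fin m → F[X]), dimH (closure (orbit A x)) < ENNReal.ofReal s} := by
        intro x hx m A
        have h6 := dim_upper p x m A k
        have h7 := dec_sup (p ^ k) r x hx
        refine lt_of_le_of_lt h6 ?_
        have h8 : (decimations x (p ^ k) : ℝ≥0∞) / ((p ^ k : ℕ) : ℝ≥0∞) ≤
            ENNReal.ofReal (((r : ℝ) + 1) / (p : ℝ) ^ k) := by
          rw [ENNReal.ofReal_div_of_pos hpk]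
          have e1 : ENNReal.ofReal ((p : ℝ) ^ k) = ((p ^ k : ℕ) : ℝ≥0∞) := by
            rw [← Nat.cast_pow, ENNReal.ofReal_natCast]
          have e2 : ENNReal.ofReal ((r : ℝ) + 1) = ((r + 1 : ℕ) : ℝ≥0∞) := by
            rw [← Nat.cast_succ, ENNReal.ofReal_natCast]
          rw [e1, e2]
          exact ENNReal.div_le_div_right (by exact_mod_cast h7) _
        refine lt_of_le_of_lt h8 ?_
        rw [ENNReal.ofReal_lt_ofReal_iff_of_nonneg (by positivity), div_lt_iff₀ hpk]
        exact hr1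
      refine le_trans ?_ (h5.trans (dimH_mono hsub))
      rw [Finset.card_range]
      have h9 : ((r : ℝ≥0∞) / ((p ^ k : ℕ) : ℝ≥0∞)) = ENNReal.ofReal ((r : ℝ) / (p : ℝ) ^ k) := by
        rw [ENNReal.ofReal_div_of_pos hpk, ENNReal.ofReal_natCast]
        congr 1
        rw [← Nat.cast_pow, ENNReal.ofReal_natCast]
      rw [h9]
      apply ENNReal.ofReal_le_ofReal
      rw [le_div_iff₀ hpk, sub_mul, mul_assoc, inv_mul_cancel₀ hpk.ne']
      linarith
  have h2 : Tendsto (fun k : ℕ => ENNReal.ofReal (s - 2 * ((p : ℝ) ^ k)⁻¹)) atTop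
      (𝓝 (ENNReal.ofReal (s - 2 * 0))) := by
    apply ENNReal.tendsto_ofReal
    apply Tendsto.const_sub
    apply Tendsto.const_mul
    exact (tendsto_pow_atTop_atTop_of_one_lt (by exact_mod_cast (by omega : 1 < p))).inv_tendsto_atTop
  have h3 := le_of_tendsto' h2 key
  rwa [mul_zero, sub_zero] at h3

/-- leaving out the rational elements -/
lemma irr (s : ℝ) (S : Set (Torus F)) (h : ENNReal.ofReal s ≤ dimH S) :
    ENNReal.ofReal s ≤ dimH {x | Tor.Irrational x ∧ x ∈ S} := by
  have hsub : S ⊆ {x | Tor.Irrational x ∧ x ∈ S} ∪ {x : Torus F | ¬ Tor.Irrational x} := by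
    intro x hx
    by_cases h : Tor.Irrational x
    · exact Or.inl ⟨h, hx⟩
    · exact Or.inr h
  have h1 := h.trans (dimH_mono hsub)
  rw [dimH_union, countable_rat.dimH_zero] at h1
  simpa using h1

theorem main (hLB : S_LB) (hFUR : S_FUR) (hYW : S_YW) (s : ℝ) (h1 : s ≤ 1) :
    dimH {x : Torus F | Tor.Irrational x ∧ ∀ (m : ℕ) (A : Fin m → F[X]),
      dimH (closure (orbit A x)) < ENNReal.ofReal s} = ENNReal.ofReal s ∧
    ∀ (m : ℕ) (A : Fin m → F[X]), 0 < m → (∀ i, 1 ≤ (A i).natDegree) →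
      dimH {x : Torus F | Tor.Irrational x ∧
        ∑ i, dimH (closure (Set.range fun n : ℕ => mul (A i ^ n) x)) < ENNReal.ofReal (m * s)} =
          ENNReal.ofReal s := by
  classical
  have hup : ∀ (m : ℕ) (A : Fin m → F[X]), 0 < m → (∀ i, 1 ≤ (A i).natDegree) →
      dimH {x : Torus F | Tor.Irrational x ∧
        ∑ i, dimH (closure (orb (A i) x)) < ENNReal.ofReal (m * s)} ≤ ENNReal.ofReal s := by
    intro m A hm hA
    have hsub : {x : Torus F | Tor.Irrational x ∧
        ∑ i, dimH (closure (orb (A i) x)) < ENNReal.ofReal (m * s)} ⊆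
        ⋃ i : Fin m, {x : Torus F | dimH (closure (orb (A i) x)) < (s.toNNReal : ℝ≥0∞)} := by
      rintro x ⟨-, hx⟩
      by_contra hcon
      simp only [Set.mem_iUnion, Set.mem_ofPred_eq, not_exists, not_lt] at hcon
      refine absurd hx (not_lt.2 ?_)
      have h2 : ∑ i : Fin m, (s.toNNReal : ℝ≥0∞) ≤ ∑ i, dimH (closure (orb (A i) x)) :=
        Finset.sum_le_sum fun i _ => hcon i
      refine le_trans (le_of_eq ?_) h2
      rw [Finset.sum_const, Finset.card_univ, Fintype.card_fin, nsmul_eq_mul,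
        ENNReal.ofReal_mul (by positivity), ENNReal.ofReal_natCast]
      rfl
    refine (dimH_mono hsub).trans ?_
    rw [dimH_iUnion]
    exact iSup_le fun i => upper_one hFUR hYW (A i) (hA i) s.toNNReal
  have hlow := irr s _ (lower (F := F) hLB s h1)
  have hfam : ∀ (m : ℕ) (A : Fin m → F[X]), 0 < m →
      {x : Torus F | Tor.Irrational x ∧ x ∈ {x : Torus F | ∀ (m : ℕ) (A : Fin m → F[X]),
        dimH (closure (orbit A x)) < ENNReal.ofReal s}} ⊆
      {x : Torus F | Tor.Irrational x ∧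
        ∑ i, dimH (closure (orb (A i) x)) < ENNReal.ofReal (m * s)} := by
    rintro m A hm x ⟨hx1, hx2⟩
    refine ⟨hx1, ?_⟩
    have hi : ∀ i, dimH (closure (orb (A i) x)) < ENNReal.ofReal s := by
      intro i
      have := hx2 1 (fun _ => A i)
      rwa [orbit_one] at this
    have : Nonempty (Fin m) := ⟨⟨0, hm⟩⟩
    have h2 : ∑ i, dimH (closure (orb (A i) x)) < ∑ i : Fin m, ENNReal.ofReal s :=
      ENNReal.sum_lt_sum_of_nonempty Finset.univ_nonempty fun i _ => hi i
    rw [Finset.sum_const, Finset.card_univ, Fintype.card_fin, nsmul_eq_mul] at h2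
    rw [ENNReal.ofReal_mul (by positivity), ENNReal.ofReal_natCast]
    exact h2
  refine ⟨le_antisymm ?_ hlow, fun m A hm hA => le_antisymm (hup m A hm hA) ?_⟩
  · refine (dimH_mono (hfam 1 (fun _ => X) one_pos)).trans (hup 1 (fun _ => X) one_pos fun _ => ?_)
    simp
  · exact hlow.trans (dimH_mono (hfam m A hm))

end Pool.Agent.H599.EX.FIN
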