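import Pool.Agent.H599.EX.Stm
import Pool.Agent.H599.SP.CMP

set_option autoImplicit false

/-!
# Furstenberg's theorem: dimension and number of the words of a closed invariant set (by helper152)
-/

open Polynomial Filter Topology MeasureTheory
open scoped ENNReal NNReal
open Pool.Agent.H599.Tor

namespace Pool.Agent.H599.EX

namespace FURaux

section alg

variable {F : Type} [Field F]

lemma mul_mul (A B : F[X]) (x : Torus F) : mul (A * B) x = mul A (mul B x) := by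
  ext n
  rw [mul_digit, Pool.Agent.H599.FF.ml_mul]
  rfl

lemma mul_one' (x : Torus F) : mul (1 : F[X]) x = x := by
  ext n
  rw [mul_digit, Pool.Agent.H599.FF.ml_eq, map_one]
  rfl

lemma pow_mem (A : F[X]) (X : Set (Torus F)) (hX : ∀ x ∈ X, mul A x ∈ X) (n : ℕ) :
    ∀ x ∈ X, mul (A ^ n) x ∈ X := by
  induction n with
  | zero =>
    intro x hx
    rw [pow_zero, mul_one']
    exact hx
  | succ n ih =>
    intro x hx
    rw [pow_succ', mul_mul]
    exact hX _ (ih x hx)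

lemma key (B : F[X]) (hB : B ≠ 0) (x y : Torus F) (m : ℕ)
    (h1 : ∀ j < B.natDegree, x.digit j = y.digit j)
    (h2 : ∀ j < m, (mul B x).digit j = (mul B y).digit j) :
    ∀ j < B.natDegree + m, x.digit j = y.digit j := by
  intro j
  induction j using Nat.strong_induction_on with
  | _ j ih =>
    intro hj
    by_cases hjd : j < B.natDegree
    · exact h1 j hjd
    · obtain ⟨k, hk⟩ := Nat.exists_eq_add_of_le (not_lt.1 hjd)
      have h3 := h2 k (by omega)
      rw [mul_digit, mul_digit] at h3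
      unfold Pool.Agent.H599.FF.ml at h3
      rw [Finset.sum_range_succ, Finset.sum_range_succ] at h3
      have h4 : ∑ i ∈ Finset.range B.natDegree, B.coeff i * x.digit (k + i) =
          ∑ i ∈ Finset.range B.natDegree, B.coeff i * y.digit (k + i) := by
        refine Finset.sum_congr rfl fun i hi => ?_
        have hi' := Finset.mem_range.1 hi
        rw [ih (k + i) (by omega) (by omega)]
      rw [h4] at h3
      have h5 := add_left_cancel h3
      have h6 : B.coeff B.natDegree ≠ 0 := by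
        rw [Polynomial.coeff_natDegree]
        exact Polynomial.leadingCoeff_ne_zero.2 hB
      have h7 := mul_left_cancel₀ h6 h5
      rw [hk, add_comm B.natDegree k]
      exact h7

lemma ncard_biUnion {α : Type} [Finite α] (I : Finset ℕ) (f : ℕ → Set α) :
    (⋃ i ∈ I, f i).ncard ≤ ∑ i ∈ I, (f i).ncard := by
  classical
  induction I using Finset.induction_on with
  | empty => simp
  | insert a s ha ih =>
    rw [Finset.set_biUnion_insert, Finset.sum_insert ha]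
    exact (Set.ncard_union_le _ _).trans (by omega)

/-- the points which begin as `x` -/
def cyl (x : Torus F) (L : ℕ) : Set (Torus F) := {y | ∀ n < L, x.digit n = y.digit n}

lemma count_step [Fintype F] (A : F[X]) (hA : 1 ≤ A.natDegree) (X : Set (Torus F))
    (hX : ∀ x ∈ X, mul A x ∈ X) (I : Finset ℕ) (c : ℕ → Torus F) (n : ℕ → ℕ)
    (hcov : ∀ x ∈ X, ∃ i ∈ I, x ∈ cyl (c i) (A.natDegree * n i)) (m : ℕ)
    (hm : ∀ i ∈ I, n i ≤ m) :
    (words (A.natDegree * m) X).ncard ≤ ∑ i ∈ I, (words (A.natDegree * (m - n i)) X).ncard := by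
  classical
  have hA0 : A ≠ 0 := by
    rintro rfl
    simp at hA
  have h1 : words (A.natDegree * m) X ⊆
      ⋃ i ∈ I, words (A.natDegree * m) (X ∩ cyl (c i) (A.natDegree * n i)) := by
    rintro w ⟨y, hy, hw⟩
    obtain ⟨i, hi, hyi⟩ := hcov y hy
    exact Set.mem_iUnion₂.2 ⟨i, hi, y, ⟨hy, hyi⟩, hw⟩
  refine (Set.ncard_le_ncard h1 (Set.toFinite _)).trans ((ncard_biUnion I _).trans ?_)
  refine Finset.sum_le_sum fun i hi => ?_
  have h4 : ∀ w : Fin (A.natDegree * m) → F, ∃ y : Torus F,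
      w ∈ words (A.natDegree * m) (X ∩ cyl (c i) (A.natDegree * n i)) →
      y ∈ X ∩ cyl (c i) (A.natDegree * n i) ∧ ∀ j, w j = y.digit j := by
    intro w
    by_cases hw : w ∈ words (A.natDegree * m) (X ∩ cyl (c i) (A.natDegree * n i))
    · obtain ⟨y, hy, hy'⟩ := hw
      exact ⟨y, fun _ => ⟨hy, hy'⟩⟩
    · exact ⟨c i, fun h => absurd h hw⟩
  choose g hg using h4
  refine Set.ncard_le_ncard_of_injOn (fun w j => (mul (A ^ n i) (g w)).digit j) ?_ ?_ (Set.toFinite _)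
  · intro w hw
    obtain ⟨h5, h6⟩ := hg w hw
    exact ⟨mul (A ^ n i) (g w), pow_mem A X hX (n i) _ h5.1, fun _ => rfl⟩
  · intro w hw w' hw' heq
    obtain ⟨⟨h5, h6⟩, h7⟩ := hg w hw
    obtain ⟨⟨h5', h6'⟩, h7'⟩ := hg w' hw'
    have hdeg : (A ^ n i).natDegree = A.natDegree * n i := by
      rw [Polynomial.natDegree_pow, mul_comm]
    have h8 := key (A ^ n i) (pow_ne_zero _ hA0) (g w) (g w') (A.natDegree * (m - n i))
      (fun j hj => by
        rw [hdeg] at hj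
        exact (h6 j hj).symm.trans (h6' j hj))
      (fun j hj => congrFun heq ⟨j, hj⟩)
    funext j
    rw [h7, h7']
    refine h8 j ?_
    rw [hdeg, ← Nat.mul_add, Nat.add_sub_cancel' (hm i hi)]
    exact j.2

end alg

lemma growth (q s1 : ℝ) (hq : 1 < q) (hs1 : 0 ≤ s1) (d : ℕ) (N : ℕ → ℕ)
    (hN : ∀ m, (N m : ℝ) ≤ q ^ (d * m)) (I : Finset ℕ) (n : ℕ → ℕ)
    (hrec : ∀ m, (∀ i ∈ I, n i ≤ m) → N m ≤ ∑ i ∈ I, N (m - n i)) (hn : ∀ i ∈ I, 1 ≤ n i)
    (hlam : ∑ i ∈ I, q ^ (-(s1 * (d * n i))) ≤ 1) :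
    ∃ C : ℝ, 0 < C ∧ ∀ m : ℕ, (N m : ℝ) ≤ C * q ^ (s1 * (d * m)) := by
  have hq0 : 0 < q := by linarith
  obtain ⟨M, hM⟩ : ∃ M, M = ∑ i ∈ I, n i := ⟨_, rfl⟩
  refine ⟨q ^ (d * M), by positivity, fun m => ?_⟩
  induction m using Nat.strong_induction_on with
  | _ m ih =>
    by_cases hm : ∀ i ∈ I, n i ≤ m
    · have h1 : (N m : ℝ) ≤ ∑ i ∈ I, (N (m - n i) : ℝ) := by
        exact_mod_cast hrec m hm
      refine h1.trans ?_
      have h2 : ∀ i ∈ I, (N (m - n i) : ℝ) ≤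
          q ^ (d * M) * q ^ (s1 * (d * m)) * q ^ (-(s1 * (d * n i))) := by
        intro i hi
        have h3 := hn i hi
        have h4 := hm i hi
        refine (ih (m - n i) (by omega)).trans (le_of_eq ?_)
        rw [mul_assoc, ← Real.rpow_add hq0, Nat.cast_sub h4]
        congr 2
        ring
      refine (Finset.sum_le_sum h2).trans ?_
      rw [← Finset.mul_sum]
      exact mul_le_of_le_one_right (by positivity) hlam
    · push Not at hm
      obtain ⟨i, hi, him⟩ := hm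
      have h3 : n i ≤ M := by
        rw [hM]
        exact Finset.single_le_sum (f := n) (fun _ _ => Nat.zero_le _) hi
      have h4 : q ^ (d * m) ≤ q ^ (d * M) :=
        pow_le_pow_right₀ hq.le (Nat.mul_le_mul_left d (by omega))
      have h5 : (1 : ℝ) ≤ q ^ (s1 * (d * m)) := Real.one_le_rpow hq.le (by positivity)
      calc (N m : ℝ) ≤ q ^ (d * M) := (hN m).trans h4
        _ ≤ q ^ (d * M) * q ^ (s1 * (d * m)) := le_mul_of_one_le_right (by positivity) h5

section top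

variable {F : Type} [Field F] [Fintype F]

lemma isOpen_cyl (x : Torus F) (L : ℕ) : IsOpen (cyl x L) := by
  rw [Metric.isOpen_iff]
  intro y hy
  have hq : (0:ℝ) < Fintype.card F := by exact_mod_cast Fintype.card_pos
  refine ⟨((Fintype.card F : ℝ)⁻¹) ^ (L + 1), by positivity, fun z hz n hn => ?_⟩
  have h1 : distance z y ≤ ((Fintype.card F : ℝ)⁻¹) ^ (L + 1) := le_of_lt hz
  rw [hy n hn]
  exact ((distance_le z y L).1 h1 n hn).symm

/-- the length of the cylinder for one set of the cover -/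
lemma one_set (d : ℕ) (hd : 1 ≤ d) (s1 : ℝ≥0) (hs1 : 0 < s1) (t : Set (Torus F))
    (ht : Metric.ediam t ≤ ENNReal.ofReal (((Fintype.card F : ℝ)⁻¹) ^ (d + 1))) (δ : ℝ)
    (hδ : 0 < δ) : ∃ (c : Torus F) (n : ℕ), 1 ≤ n ∧ t ⊆ cyl c (d * n) ∧
      ENNReal.ofReal ((Fintype.card F : ℝ) ^ (-((s1 : ℝ) * (d * n)))) ≤
        ENNReal.ofReal ((Fintype.card F : ℝ) ^ ((s1 : ℝ) * (d + 1))) *
          (⨆ _ : t.Nonempty, Metric.ediam t ^ (s1 : ℝ)) + ENNReal.ofReal δ := by
  classical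
  have hq : (1 : ℝ) < Fintype.card F := by exact_mod_cast Fintype.one_lt_card
  obtain ⟨q, hqq⟩ : ∃ q : ℝ, q = Fintype.card F := ⟨_, rfl⟩
  rw [← hqq] at hq ht ⊢
  have hq0 : 0 < q := by linarith
  have hs1' : (0 : ℝ) < s1 := hs1
  have hd' : (0 : ℝ) < d := by exact_mod_cast hd
  -- a large length
  obtain ⟨N, hN1, hN⟩ : ∃ N : ℕ, 1 ≤ N ∧ q ^ (-((s1 : ℝ) * (d * N))) ≤ δ := by
    have h1 : q ^ (-((s1 : ℝ) * d)) < 1 := Real.rpow_lt_one_of_one_lt_of_neg hq (by
      have := mul_pos hs1' hd'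
      linarith)
    obtain ⟨N, hN⟩ := exists_pow_lt_of_lt_one hδ h1
    refine ⟨N + 1, by omega, ?_⟩
    have h2 : q ^ (-((s1 : ℝ) * (d * ((N + 1 : ℕ) : ℝ)))) = (q ^ (-((s1 : ℝ) * d))) ^ (N + 1) := by
      rw [← Real.rpow_natCast, ← Real.rpow_mul hq0.le]
      congr 1
      ring
    rw [h2]
    refine le_trans ?_ hN.le
    exact pow_le_pow_of_le_one (by positivity) h1.le (Nat.le_succ N)
  by_cases hne : t.Nonempty
  · obtain ⟨c, hc⟩ := hne
    have hsub : ∀ n : ℕ, Metric.ediam t ≤ ENNReal.ofReal (q⁻¹ ^ (d * n + 1)) →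
        t ⊆ cyl c (d * n) := by
      intro n hn y hy
      have h1 : edist c y ≤ ENNReal.ofReal (q⁻¹ ^ (d * n + 1)) :=
        (Metric.edist_le_ediam_of_mem hc hy).trans hn
      have h2 : dist c y ≤ q⁻¹ ^ (d * n + 1) := by
        rw [edist_dist] at h1
        exact (ENNReal.ofReal_le_ofReal_iff (by positivity)).1 h1
      rw [hqq] at h2
      exact (distance_le c y (d * n)).1 h2
    by_cases hP : Metric.ediam t ≤ ENNReal.ofReal (q⁻¹ ^ (d * N + 1))
    · exact ⟨c, N, hN1, hsub N hP, (ENNReal.ofReal_le_ofReal hN).trans le_add_self⟩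
    · have hex : ∃ k : ℕ, ¬ Metric.ediam t ≤ ENNReal.ofReal (q⁻¹ ^ (d * (k + 1) + 1)) := by
        refine ⟨N - 1, ?_⟩
        rw [Nat.sub_add_cancel hN1]
        exact hP
      obtain ⟨k, hk1, hk2⟩ : ∃ k : ℕ, (¬ Metric.ediam t ≤ ENNReal.ofReal (q⁻¹ ^ (d * (k + 1) + 1))) ∧
          ∀ k' < k, ¬ ¬ Metric.ediam t ≤ ENNReal.ofReal (q⁻¹ ^ (d * (k' + 1) + 1)) :=
        ⟨Nat.find hex, Nat.find_spec hex, fun k' hk' => Nat.find_min hex hk'⟩
      have hk0 : 1 ≤ k := by
        rcases Nat.eq_zero_or_pos k with h1 | h1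
        · exfalso
          apply hk1
          rw [h1, zero_add, mul_one]
          exact ht
        · exact h1
      have hk3 : Metric.ediam t ≤ ENNReal.ofReal (q⁻¹ ^ (d * k + 1)) := by
        have h1 := not_not.1 (hk2 (k - 1) (by omega))
        rwa [Nat.sub_add_cancel hk0] at h1
      refine ⟨c, k, hk0, hsub k hk3, le_trans ?_ le_self_add⟩
      rw [iSup_pos ⟨c, hc⟩]
      have h1 : ENNReal.ofReal (q⁻¹ ^ (d * (k + 1) + 1)) ^ (s1 : ℝ) ≤ Metric.ediam t ^ (s1 : ℝ) :=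
        ENNReal.rpow_le_rpow (not_le.1 hk1).le hs1'.le
      refine le_trans (le_of_eq ?_) (mul_le_mul_right h1 _)
      rw [ENNReal.ofReal_rpow_of_nonneg (by positivity) hs1'.le, ← ENNReal.ofReal_mul (by positivity)]
      congr 1
      rw [← Real.rpow_natCast, Real.inv_rpow hq0.le, ← Real.rpow_neg hq0.le, ← Real.rpow_mul hq0.le,
        ← Real.rpow_add hq0]
      congr 1
      push_cast
      ring
  · refine ⟨⟨fun _ => 0⟩, N, hN1, ?_, (ENNReal.ofReal_le_ofReal hN).trans le_add_self⟩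
    rw [Set.not_nonempty_iff_eq_empty.1 hne]
    exact Set.empty_subset _

lemma cover (d : ℕ) (hd : 1 ≤ d) (X : Set (Torus F)) (hXc : IsClosed X) (s1 : ℝ≥0)
    (hs1 : dimH X < s1) : ∃ (I : Finset ℕ) (c : ℕ → Torus F) (n : ℕ → ℕ), (∀ i, 1 ≤ n i) ∧
      (∀ x ∈ X, ∃ i ∈ I, x ∈ cyl (c i) (d * n i)) ∧
      ∑ i ∈ I, (Fintype.card F : ℝ) ^ (-((s1 : ℝ) * (d * n i))) ≤ 1 := by
  classical
  borelize (Torus F)
  have hq : (1 : ℝ) < Fintype.card F := by exact_mod_cast Fintype.one_lt_card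
  have hq0 : (0 : ℝ) < Fintype.card F := by linarith
  have hs0 : 0 < s1 := by
    have h1 : (0 : ℝ≥0∞) < s1 := lt_of_le_of_lt bot_le hs1
    exact_mod_cast h1
  have hs0' : (0 : ℝ) < s1 := hs0
  have h0 : μH[(s1 : ℝ)] X = 0 := hausdorffMeasure_of_dimH_lt hs1
  rw [Measure.hausdorffMeasure_apply] at h0
  obtain ⟨r, hr⟩ : ∃ r : ℝ≥0∞, r = ENNReal.ofReal (((Fintype.card F : ℝ)⁻¹) ^ (d + 1)) := ⟨_, rfl⟩
  have hr0 : 0 < r := by
    rw [hr]
    exact ENNReal.ofReal_pos.2 (by positivity)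
  obtain ⟨K, hK⟩ : ∃ K : ℝ, K = (Fintype.card F : ℝ) ^ ((s1 : ℝ) * (d + 1)) := ⟨_, rfl⟩
  have hK0 : 0 < K := by
    rw [hK]
    positivity
  have h3 : (⨅ (t : ℕ → Set (Torus F)) (_ : X ⊆ ⋃ n, t n) (_ : ∀ n, Metric.ediam (t n) ≤ r),
      ∑' n, ⨆ _ : (t n).Nonempty, Metric.ediam (t n) ^ (s1 : ℝ)) < ENNReal.ofReal (1 / (2 * K)) := by
    refine lt_of_le_of_lt ?_ (ENNReal.ofReal_pos.2 (by positivity : 0 < 1 / (2 * K)))
    rw [← h0]
    exact le_iSup₂ (f := fun (r : ℝ≥0∞) (_ : 0 < r) =>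
      ⨅ (t : ℕ → Set (Torus F)) (_ : X ⊆ ⋃ n, t n) (_ : ∀ n, Metric.ediam (t n) ≤ r),
        ∑' n, ⨆ _ : (t n).Nonempty, Metric.ediam (t n) ^ (s1 : ℝ)) r hr0
  simp only [iInf_lt_iff] at h3
  obtain ⟨t, hcov, hdiam, hsum⟩ := h3
  have h4 : ∀ i : ℕ, ∃ (c : Torus F) (n : ℕ), 1 ≤ n ∧ t i ⊆ cyl c (d * n) ∧
      ENNReal.ofReal ((Fintype.card F : ℝ) ^ (-((s1 : ℝ) * (d * n)))) ≤
        ENNReal.ofReal ((Fintype.card F : ℝ) ^ ((s1 : ℝ) * (d + 1))) *
          (⨆ _ : (t i).Nonempty, Metric.ediam (t i) ^ (s1 : ℝ)) +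
            ENNReal.ofReal ((1 / 2 : ℝ) ^ i / 4) :=
    fun i => one_set d hd s1 hs0 (t i) (hr ▸ hdiam i) _ (by positivity)
  choose c n hn hsub hle using h4
  have hXk : IsCompact X :=
    (Pool.Agent.H599.SP.CMPaux.compact_univ (F := F)).of_isClosed_subset hXc (Set.subset_univ _)
  obtain ⟨I, hI⟩ := hXk.elim_finite_subcover (fun i => cyl (c i) (d * n i))
    (fun i => isOpen_cyl _ _) (hcov.trans (Set.iUnion_mono hsub))
  refine ⟨I, c, n, hn, fun x hx => ?_, ?_⟩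
  · obtain ⟨i, hi, hxi⟩ := Set.mem_iUnion₂.1 (hI hx)
    exact ⟨i, hi, hxi⟩
  · rw [← ENNReal.ofReal_le_one, ENNReal.ofReal_sum_of_nonneg (fun i _ => by positivity)]
    calc ∑ i ∈ I, ENNReal.ofReal ((Fintype.card F : ℝ) ^ (-((s1 : ℝ) * (d * n i))))
        ≤ ∑ i ∈ I, (ENNReal.ofReal K * (⨆ _ : (t i).Nonempty, Metric.ediam (t i) ^ (s1 : ℝ)) +
            ENNReal.ofReal ((1 / 2 : ℝ) ^ i / 4)) := by
          rw [hK]
          exact Finset.sum_le_sum fun i _ => hle i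
      _ = ENNReal.ofReal K * (∑ i ∈ I, ⨆ _ : (t i).Nonempty, Metric.ediam (t i) ^ (s1 : ℝ)) +
            ENNReal.ofReal (∑ i ∈ I, (1 / 2 : ℝ) ^ i / 4) := by
          rw [Finset.sum_add_distrib, ← Finset.mul_sum,
            ENNReal.ofReal_sum_of_nonneg (fun i _ => by positivity)]
      _ ≤ ENNReal.ofReal K * ENNReal.ofReal (1 / (2 * K)) + ENNReal.ofReal (1 / 2) := by
          refine add_le_add (mul_le_mul_right ((ENNReal.sum_le_tsum I).trans hsum.le) _)
            (ENNReal.ofReal_le_ofReal ?_)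
          have h5 : ∑ i ∈ I, (1 / 2 : ℝ) ^ i ≤ 2 := by
            exact (summable_geometric_two.sum_le_tsum I (fun i _ => by positivity)).trans
              tsum_geometric_two.le
          rw [← Finset.sum_div]
          linarith
      _ = 1 := by
          rw [← ENNReal.ofReal_mul hK0.le, ← ENNReal.ofReal_add (by positivity) (by norm_num),
            ← ENNReal.ofReal_one]
          congr 1
          field_simp
          norm_num

end top

end FURaux

open FURaux in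
theorem t_FUR : S_FUR := by
  intro F _ _ A hA X hXc hX s hs
  have hq : (1 : ℝ) < Fintype.card F := by exact_mod_cast Fintype.one_lt_card
  obtain ⟨q, hqq⟩ : ∃ q : ℝ, q = Fintype.card F := ⟨_, rfl⟩
  obtain ⟨s1, h1, h2⟩ := ENNReal.lt_iff_exists_nnreal_btwn.1 hs
  have h2' : (s1 : ℝ) < s := by exact_mod_cast h2
  obtain ⟨I, c, n, hn, hcov, hlam⟩ := cover A.natDegree hA X hXc s1 h1
  obtain ⟨C, hC, hN⟩ := growth (Fintype.card F) s1 hq s1.2 A.natDegree
    (fun m => (words (A.natDegree * m) X).ncard) (fun m => by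
      have h3 : (words (A.natDegree * m) X).ncard ≤ Fintype.card F ^ (A.natDegree * m) := by
        refine (Set.ncard_le_card _).trans (le_of_eq ?_)
        rw [Nat.card_eq_fintype_card, Fintype.card_fun, Fintype.card_fin]
      exact_mod_cast h3) I n
    (fun m hm => count_step A hA X hX I c n hcov m hm) (fun i _ => hn i) hlam
  rw [← hqq] at hq hN ⊢
  have hq0 : 0 < q := by linarith
  have hd' : (0 : ℝ) < A.natDegree := by exact_mod_cast hA
  have hr : 1 < q ^ (((s : ℝ) - s1) * A.natDegree) := Real.one_lt_rpow hq (by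
    have := mul_pos (sub_pos.2 h2') hd'
    linarith)
  obtain ⟨k, hk⟩ := pow_unbounded_of_one_lt C hr
  refine ⟨k + 1, by omega, lt_of_le_of_lt (hN (k + 1)) ?_⟩
  have h3 : C < (q ^ (((s : ℝ) - s1) * A.natDegree)) ^ (k + 1) :=
    lt_of_lt_of_le hk (pow_le_pow_right₀ hr.le (Nat.le_succ k))
  have h4 : q ^ ((s : ℝ) * ((A.natDegree * (k + 1) : ℕ) : ℝ)) =
      (q ^ (((s : ℝ) - s1) * A.natDegree)) ^ (k + 1) *
        q ^ ((s1 : ℝ) * (A.natDegree * ((k + 1 : ℕ) : ℝ))) := by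
    rw [← Real.rpow_natCast, ← Real.rpow_mul hq0.le, ← Real.rpow_add hq0]
    congr 1
    push_cast
    ring
  rw [h4]
  exact mul_lt_mul_of_pos_right h3 (by positivity)

end Pool.Agent.H599.EX
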