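import Pool.Agent.H599.SP.GEN

set_option autoImplicit false

/-!
# Elements with rich orbits and with free digits outside of a sparse set of places
-/

open Polynomial Finset

namespace Pool.Agent.H599.EX.GN2

open Pool.Agent.H599.FF Pool.Agent.H599.SP.XGEN

/-- the multiple of the number of the fixed digits at the stage `j` -/
def mlt (j P L : ℕ) : ℕ := (j + 1) * (P + L + 1)

variable {F : Type} [Field F]

/-- one step of the construction: only the digits in the window `[D, D + L)` are changed, where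
`D` is the degree of `A ^ (P * p ^ k)` -/
theorem one_step (p : ℕ) [Fact p.Prime] [CharP F p] (K : Set ℕ) (x₀ : ℕ → F)
    (h0 : ∀ n, n ∉ K → x₀ n = 0) (P k L : ℕ) (A : F[X]) (hA : 1 ≤ A.natDegree) (w : ℕ → F) :
    ∃ (x : ℕ → F), (∀ n, n ∉ K → x n = 0) ∧
      (∀ n, ¬ (A.natDegree * (P * p ^ k) ≤ n ∧ n < A.natDegree * (P * p ^ k) + L) → x n = x₀ n) ∧
      ∀ n < L, (∀ l, p ^ k * l + n % p ^ k ∈ K) → ml (A ^ (P * p ^ k)) x n = w n := by
  classical
  have hp : 0 < p := (Fact.out : p.Prime).pos
  have hexp : ExpChar F p := ExpChar.prime Fact.out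
  obtain ⟨Q, hQ⟩ : ∃ Q, Q = p ^ k := ⟨_, rfl⟩
  have hQ0 : 0 < Q := by rw [hQ]; positivity
  obtain ⟨G, hG⟩ : ∃ G : F[X], G = map (iterateFrobenius F p k) (A ^ P) := ⟨_, rfl⟩
  have hA0 : A ≠ 0 := by
    rintro rfl
    simp at hA
  have hinj : Function.Injective (iterateFrobenius F p k) := RingHom.injective _
  have hG0 : G ≠ 0 := by
    rw [hG]
    exact (Polynomial.map_ne_zero_iff hinj).2 (pow_ne_zero _ hA0)
  have hGd : G.natDegree = P * A.natDegree := by
    rw [hG, Polynomial.natDegree_map_eq_of_injective hinj, natDegree_pow]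
  obtain ⟨good, hgood⟩ : ∃ good : ℕ → Prop, good = fun r => ∀ l, Q * l + r ∈ K := ⟨_, rfl⟩
  obtain ⟨Z, hZ⟩ : ∃ Z : ℕ → ℕ → F, Z = fun r => tri G (dec Q r x₀) (fun l => w (Q * l + r)) :=
    ⟨_, rfl⟩
  obtain ⟨x', hx'⟩ : ∃ x' : ℕ → F, x' = fun n => if good (n % Q) then Z (n % Q) (n / Q) else x₀ n :=
    ⟨_, rfl⟩
  obtain ⟨D, hD⟩ : ∃ D, D = A.natDegree * (P * Q) := ⟨_, rfl⟩
  have hx'K : ∀ n, n ∉ K → x' n = 0 := by
    intro n hn
    have h1 : ¬ good (n % Q) := by
      intro h
      rw [hgood] at h
      have := h (n / Q)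
      rw [Nat.div_add_mod] at this
      exact hn this
    rw [hx']
    simp only
    rw [if_neg h1]
    exact h0 n hn
  have hx'D : ∀ n < D, x' n = x₀ n := by
    intro n hn
    rw [hx']
    simp only
    split_ifs with h
    · rw [hZ]
      simp only
      have h1 : n / Q < G.natDegree := by
        rw [Nat.div_lt_iff_lt_mul hQ0, hGd]
        calc n < D := hn
          _ = P * A.natDegree * Q := by rw [hD]; ring
      rw [tri_lt _ _ _ h1]
      unfold dec
      rw [Nat.div_add_mod]
    · rfl
  have hx'w : ∀ n, (∀ l, Q * l + n % Q ∈ K) → ml (A ^ (P * Q)) x' n = w n := by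
    intro n hn
    have h1 : good (n % Q) := by
      rw [hgood]
      exact hn
    have h2 : dec Q (n % Q) x' = Z (n % Q) := by
      funext l
      unfold dec
      have e1 : (Q * l + n % Q) % Q = n % Q := by
        rw [Nat.mul_add_mod, Nat.mod_mod]
      have e2 : (Q * l + n % Q) / Q = l := by
        rw [Nat.mul_add_div hQ0, Nat.div_eq_of_lt (Nat.mod_lt _ hQ0), add_zero]
      rw [hx']
      simp only
      rw [e1, e2, if_pos h1]
    have h3 := key (F := F) p k hQ (A ^ P) x' n
    rw [← hG, h2] at h3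
    rw [pow_mul, hQ, ← h3, hZ]
    simp only
    rw [ml_tri hG0]
    rw [Nat.div_add_mod]
  rw [← hQ]
  refine ⟨fun n => if n < D + L then x' n else x₀ n, fun n hn => ?_, fun n hn => ?_, fun n hn hg => ?_⟩
  · simp only
    split_ifs
    · exact hx'K n hn
    · exact h0 n hn
  · simp only
    split_ifs with h
    · apply hx'D
      rw [← hD] at hn
      omega
    · rfl
  · rw [← hx'w n hg]
    unfold ml
    refine Finset.sum_congr rfl fun i hi => ?_
    rw [Finset.mem_range, natDegree_pow] at hi
    have h1 : n + i < D + L := by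
      rw [hD]
      have : P * Q * A.natDegree = A.natDegree * (P * Q) := mul_comm _ _
      omega
    simp only
    rw [if_pos h1]

/-- the start of the window at the stage `j` -/
noncomputable def start (p : ℕ) (j P : ℕ) (t : ℕ × F[X] × List F) : ℕ :=
  t.2.1.natDegree * (mlt j P t.2.2.length * p ^ t.1)

/-- the end of the window at the stage `j` -/
noncomputable def fin (p : ℕ) (j P : ℕ) (t : ℕ × F[X] × List F) : ℕ :=
  if 1 ≤ t.2.1.natDegree then start p j P t + t.2.2.length else P + 1

lemma start_ge (p : ℕ) [Fact p.Prime] (j P : ℕ) (t : ℕ × F[X] × List F) (h : 1 ≤ t.2.1.natDegree) :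
    (j + 1) * (P + t.2.2.length + 1) ≤ start p j P t := by
  have hp : 0 < p := (Fact.out : p.Prime).pos
  have h1 : 0 < p ^ t.1 := by positivity
  unfold start mlt
  calc (j + 1) * (P + t.2.2.length + 1) = 1 * ((j + 1) * (P + t.2.2.length + 1) * 1) := by ring
    _ ≤ _ := Nat.mul_le_mul h (Nat.mul_le_mul_left _ h1)

lemma fin_ge (p : ℕ) [Fact p.Prime] (j P : ℕ) (t : ℕ × F[X] × List F) : P + 1 ≤ fin p j P t := by
  unfold fin
  split_ifs with h
  · have h1 := start_ge p j P t h
    have h2 : P + t.2.2.length + 1 ≤ (j + 1) * (P + t.2.2.length + 1) := Nat.le_mul_of_pos_left _ (by omega)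
    omega
  · exact le_rfl

/-- the requirement `(k, A, l)` for the exponents which are used -/
def Req (p : ℕ) (K : Set ℕ) (t : ℕ × F[X] × List F) (y : ℕ → F) : Prop :=
  1 ≤ t.2.1.natDegree → ∃ e : ℕ, ∀ n < t.2.2.length, (∀ l, p ^ t.1 * l + n % p ^ t.1 ∈ K) →
    ml (t.2.1 ^ e) y n = t.2.2.getD n 0

/-- the places of the window at the stage `j` -/
def win (p : ℕ) (j P : ℕ) (t : ℕ × F[X] × List F) : Set ℕ :=
  {n | 1 ≤ t.2.1.natDegree ∧ start p j P t ≤ n ∧ n < start p j P t + t.2.2.length}

theorem next (p : ℕ) [Fact p.Prime] [CharP F p] (K : Set ℕ) (j P : ℕ) (t : ℕ × F[X] × List F)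
    (x₀ : ℕ → F) (h0 : ∀ n, n ∉ K → x₀ n = 0) : ∃ x : ℕ → F, (∀ n, n ∉ K → x n = 0) ∧
      (∀ n, n ∉ win p j P t → x n = x₀ n) ∧
      ∀ y : ℕ → F, (∀ n < fin p j P t, y n = x n) → Req p K t y := by
  by_cases hA : 1 ≤ t.2.1.natDegree
  · obtain ⟨x, h1, h2, h3⟩ := one_step p K x₀ h0 (mlt j P t.2.2.length) t.1 t.2.2.length t.2.1 hA
      (fun n => t.2.2.getD n 0)
    refine ⟨x, h1, fun n hn => h2 n fun h => hn ⟨hA, h⟩, ?_⟩
    intro y hy _
    refine ⟨mlt j P t.2.2.length * p ^ t.1, fun n hn hg => ?_⟩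
    rw [← h3 n hn hg]
    unfold ml
    refine Finset.sum_congr rfl fun i hi => ?_
    rw [Finset.mem_range, natDegree_pow] at hi
    rw [hy (n + i)]
    unfold fin start
    rw [if_pos hA]
    have : mlt j P t.2.2.length * p ^ t.1 * t.2.1.natDegree =
      t.2.1.natDegree * (mlt j P t.2.2.length * p ^ t.1) := mul_comm _ _
    omega
  · exact ⟨x₀, h0, fun _ _ => rfl, fun y _ h => absurd h hA⟩

/-- density zero -/
def Sparse (K' : Set ℕ) : Prop := ∀ m : ℕ, ∃ C : ℕ, ∀ n : ℕ,
  (m + 1) * {x : ℕ | x < n ∧ x ∈ K'}.ncard ≤ n + C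

theorem main (F : Type) [Field F] [Fintype F] (p : ℕ) [Fact p.Prime] [CharP F p] (K : Set ℕ) :
    ∃ K' : Set ℕ, Sparse K' ∧ ∀ y : ℕ → F, (∀ n, n ∉ K → y n = 0) → ∃ x : ℕ → F,
      (∀ n, n ∉ K → x n = 0) ∧ (∀ n, n ∉ K' → x n = y n) ∧
      ∀ (k : ℕ) (A : F[X]), 1 ≤ A.natDegree → ∀ (L : ℕ) (w : ℕ → F), ∃ e : ℕ,
        ∀ n < L, (∀ l, p ^ k * l + n % p ^ k ∈ K) → ml (A ^ e) x n = w n := by
  classical
  have hc : Countable (ℕ × F[X] × List F) := by
    have : Countable F := Finite.to_countable
    have : Countable F[X] := Cardinal.mk_le_aleph0_iff.1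
      ((Polynomial.cardinalMk_le_max).trans (max_le Cardinal.mk_le_aleph0 le_rfl))
    infer_instance
  obtain ⟨f, hf⟩ := exists_surjective_nat (ℕ × F[X] × List F)
  let P : ℕ → ℕ := fun i => Nat.rec 0 (fun j P => fin p j P (f j)) i
  have hPs : ∀ j, P (j + 1) = fin p j (P j) (f j) := fun _ => rfl
  have hP1 : ∀ j, P j + 1 ≤ P (j + 1) := fun j => by rw [hPs]; exact fin_ge p j (P j) (f j)
  have hPm : Monotone P := monotone_nat_of_le_succ fun j => by have := hP1 j; omega
  have hPj : ∀ j, j ≤ P j := by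
    intro j
    induction j with
    | zero => exact Nat.zero_le _
    | succ j ih => have := hP1 j; omega
  let W : ℕ → Set ℕ := fun j => win p j (P j) (f j)
  have hWlo : ∀ j, ∀ n ∈ W j, P j ≤ n := by
    rintro j n ⟨hA, h1, -⟩
    have h3 := start_ge p j (P j) (f j) hA
    have h2 : P j + (f j).2.2.length + 1 ≤ (j + 1) * (P j + (f j).2.2.length + 1) :=
      Nat.le_mul_of_pos_left _ (by omega)
    omega
  have hWhi : ∀ j, ∀ n ∈ W j, n < P (j + 1) := by
    rintro j n ⟨hA, h1, h2⟩
    rw [hPs]
    unfold fin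
    rw [if_pos hA]
    exact h2
  refine ⟨⋃ j, W j, ?_, ?_⟩
  · -- the density
    intro m
    refine ⟨(m + 1) * P m, ?_⟩
    have hbd : ∀ n : ℕ, {x : ℕ | x < n ∧ x ∈ ⋃ j, W j}.ncard ≤ n := by
      intro n
      have h1 : {x : ℕ | x < n ∧ x ∈ ⋃ j, W j} ⊆ ((Finset.range n : Finset ℕ) : Set ℕ) := by
        rintro x ⟨hx, -⟩
        simpa using hx
      have h2 := Set.ncard_le_ncard h1 (Finset.finite_toSet _)
      rwa [Set.ncard_coe_finset, Finset.card_range] at h2
    have key : ∀ i n, n ≤ P i → (m + 1) * {x : ℕ | x < n ∧ x ∈ ⋃ j, W j}.ncard ≤ n + (m + 1) * P m := by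
      intro i
      induction i with
      | zero =>
        intro n hn
        have h1 := hbd n
        have h2 : n ≤ P m := hn.trans (hPm (Nat.zero_le m))
        have h3 := Nat.mul_le_mul_left (m + 1) (h1.trans h2)
        omega
      | succ i ih =>
        intro n hn
        rcases le_or_gt n (P i) with h1 | h1
        · exact ih n h1
        rcases lt_or_ge i m with him | him
        · have h2 : n ≤ P m := hn.trans (hPm him)
          have h3 := Nat.mul_le_mul_left (m + 1) ((hbd n).trans h2)
          omega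
        have hsplit : {x : ℕ | x < n ∧ x ∈ ⋃ j, W j} ⊆
            {x : ℕ | x < P i ∧ x ∈ ⋃ j, W j} ∪ {x | x < n ∧ x ∈ W i} := by
          rintro x ⟨hx1, hx2⟩
          rcases lt_or_ge x (P i) with h2 | h2
          · exact Or.inl ⟨h2, hx2⟩
          · right
            refine ⟨hx1, ?_⟩
            obtain ⟨j, hj⟩ := Set.mem_iUnion.1 hx2
            have h3 := hWlo j x hj
            have h4 := hWhi j x hj
            have h5 : j = i := by
              rcases lt_trichotomy j i with h | h | h
              · have := hPm (show j + 1 ≤ i from h)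
                omega
              · exact h
              · have := hPm (show i + 1 ≤ j from h)
                omega
            rw [← h5]
            exact hj
        have hfin1 : {x : ℕ | x < P i ∧ x ∈ ⋃ j, W j}.Finite :=
          (Set.finite_lt_nat (P i)).subset fun x hx => hx.1
        have hfin2 : {x | x < n ∧ x ∈ W i}.Finite := (Set.finite_lt_nat n).subset fun x hx => hx.1
        have hle := (Set.ncard_le_ncard hsplit (hfin1.union hfin2)).trans (Set.ncard_union_le _ _)
        rcases le_or_gt n (start p i (P i) (f i)) with h2 | h2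
        · have h3 : {x | x < n ∧ x ∈ W i} = ∅ := by
            ext x
            simp only [Set.mem_ofPred_eq, Set.mem_empty_iff_false, iff_false, not_and]
            rintro hx ⟨-, h4, -⟩
            omega
          rw [h3, Set.ncard_empty, add_zero] at hle
          have h4 := ih (P i) le_rfl
          have h5 := Nat.mul_le_mul_left (m + 1) hle
          omega
        · by_cases hA : 1 ≤ (f i).2.1.natDegree
          · have h3 : {x | x < n ∧ x ∈ W i} ⊆ ((Finset.Ico (start p i (P i) (f i))
                (start p i (P i) (f i) + (f i).2.2.length) : Finset ℕ) : Set ℕ) := by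
              rintro x ⟨-, -, h4, h5⟩
              rw [Finset.coe_Ico]
              exact ⟨h4, h5⟩
            have h4 := Set.ncard_le_ncard h3 (Finset.finite_toSet _)
            rw [Set.ncard_coe_finset, Nat.card_Ico] at h4
            have h5 := hbd (P i)
            have h6 : {x : ℕ | x < n ∧ x ∈ ⋃ j, W j}.ncard ≤ P i + (f i).2.2.length := by omega
            have h7 := start_ge p i (P i) (f i) hA
            have h8 : (m + 1) * (P i + (f i).2.2.length) ≤ (i + 1) * (P i + (f i).2.2.length + 1) :=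
              Nat.mul_le_mul (by omega) (by omega)
            have h9 := Nat.mul_le_mul_left (m + 1) h6
            omega
          · have h3 : {x | x < n ∧ x ∈ W i} = ∅ := by
              ext x
              simp only [Set.mem_ofPred_eq, Set.mem_empty_iff_false, iff_false, not_and]
              rintro hx ⟨h4, -, -⟩
              exact hA h4
            rw [h3, Set.ncard_empty, add_zero] at hle
            have h4 := ih (P i) le_rfl
            have h5 := Nat.mul_le_mul_left (m + 1) hle
            omega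
    intro n
    exact key n n (hPj n)
  · -- the construction
    intro y hy
    have hnext := fun (j : ℕ) (x₀ : {x : ℕ → F // ∀ n, n ∉ K → x n = 0}) =>
      next p K j (P j) (f j) x₀.1 x₀.2
    choose nx h1 h2 h3 using hnext
    let xs : ℕ → {x : ℕ → F // ∀ n, n ∉ K → x n = 0} := fun i =>
      Nat.rec ⟨y, hy⟩ (fun j x₀ => ⟨nx j x₀, h1 j x₀⟩) i
    have hxs : ∀ j, (xs (j + 1)).1 = nx j (xs j) := fun _ => rfl
    have hstep : ∀ j n, n ∉ W j → (xs (j + 1)).1 n = (xs j).1 n := fun j n hn => by
      rw [hxs]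
      exact h2 j (xs j) n hn
    have hlow : ∀ j d, ∀ n < P j, (xs (j + d)).1 n = (xs j).1 n := by
      intro j d
      induction d with
      | zero => intro n _; rfl
      | succ d ih =>
        intro n hn
        rw [← add_assoc, hstep (j + d) n, ih n hn]
        intro h
        have h4 := hWlo _ _ h
        have h5 := hPm (show j ≤ j + d by omega)
        omega
    have hout : ∀ n, n ∉ (⋃ j, W j) → ∀ j, (xs j).1 n = y n := by
      intro n hn j
      induction j with
      | zero => rfl
      | succ j ih => rw [hstep j n fun h => hn (Set.mem_iUnion.2 ⟨j, h⟩), ih]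
    let x : ℕ → F := fun n => (xs (n + 1)).1 n
    have hx : ∀ i n, n < P i → x n = (xs i).1 n := by
      intro i n hn
      show (xs (n + 1)).1 n = (xs i).1 n
      rcases le_total i (n + 1) with h | h
      · obtain ⟨d, hd⟩ := Nat.exists_eq_add_of_le h
        rw [hd]
        exact hlow i d n hn
      · obtain ⟨d, hd⟩ := Nat.exists_eq_add_of_le h
        have h4 := hlow (n + 1) d n (lt_of_lt_of_le (Nat.lt_succ_self n) (hPj (n + 1)))
        rw [← hd] at h4
        exact h4.symm
    refine ⟨x, fun n hn => (xs (n + 1)).2 n hn, fun n hn => hout n hn (n + 1), fun k A hA L w => ?_⟩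
    obtain ⟨i, hi⟩ := hf (k, A, (List.range L).map w)
    have h4 := h3 i (xs i) x (fun n hn => by
      rw [← hPs] at hn
      exact hx (i + 1) n hn)
    rw [hi] at h4
    obtain ⟨e, he⟩ := h4 hA
    refine ⟨e, fun n hn hg => ?_⟩
    have h5 := he n (by simpa using hn) hg
    rw [h5]
    simp [List.getD_eq_getElem?_getD, hn]

end Pool.Agent.H599.EX.GN2
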