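import Pool.Agent.H599.SP.LB

set_option autoImplicit false
set_option linter.unusedSectionVars false

/-!
# Lower bound for the dimension of a set of elements with free digits at the places of `S`
-/

open Polynomial Filter Topology
open scoped ENNReal NNReal
open Pool.Agent.H599.Tor

namespace Pool.Agent.H599.EX.LBS

variable {F : Type} [Field F] [Fintype F]

open Classical in
/-- the map onto the interval -/
noncomputable def fm (S : Set ℕ) (v : Torus F) : ℝ :=
  Real.ofDigits (b := Fintype.card F) fun j => Fintype.equivFin F (v.digit (Nat.nth (fun n => n ∈ S) j))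

open Classical in
lemma fm_surj (S : Set ℕ) (hS : S.Infinite) (E : Set (Torus F))
    (hE : ∀ y : ℕ → F, ∃ x ∈ E, ∀ n ∈ S, x.digit n = y n) :
    Set.Icc (0 : ℝ) 1 ⊆ fm (F := F) S '' E := by
  intro y hy
  obtain ⟨a, -, ha⟩ := Real.ofDigits_SurjOn (b := Fintype.card F) Fintype.one_lt_card hy
  obtain ⟨x, hx1, hx2⟩ := hE fun n => (Fintype.equivFin F).symm (a (Nat.count (fun n => n ∈ S) n))
  refine ⟨x, hx1, ?_⟩
  rw [← ha]
  unfold fm
  congr 1
  funext j
  have h1 : Nat.nth (fun n => n ∈ S) j ∈ S := Nat.nth_mem_of_infinite hS j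
  have h2 : Nat.count (fun n => n ∈ S) (Nat.nth (fun n => n ∈ S) j) = j :=
    Nat.count_nth_of_infinite (p := fun n => n ∈ S) hS j
  rw [hx2 _ h1, Equiv.apply_symm_apply, h2]

open Classical in
lemma fm_close (S : Set ℕ) (v v' : Torus F) (n : ℕ) (h : ∀ k < n, v.digit k = v'.digit k) :
    |fm S v - fm S v'| ≤ ((Fintype.card F : ℝ) ^ (Nat.count (fun n => n ∈ S) n))⁻¹ := by
  unfold fm
  refine Real.abs_ofDigits_sub_ofDigits_le fun j hj => ?_
  congr 1
  exact h _ (Nat.nth_lt_of_lt_count hj)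

open Classical in
lemma fm_holder (S : Set ℕ) (s : ℝ≥0) (C : ℕ)
    (hcount : ∀ n : ℕ, (s : ℝ) * n ≤ (Nat.count (fun n => n ∈ S) n : ℝ) + C) :
    HolderWith ((Fintype.card F : ℝ≥0) ^ (C + ⌈(s : ℝ)⌉₊)) s (fm (F := F) S) := by
  intro v v'
  have hq : (1 : ℝ) < Fintype.card F := by exact_mod_cast Fintype.one_lt_card
  have hq0 : (0 : ℝ) < Fintype.card F := by linarith
  have hr0 : (0 : ℝ) ≤ (s : ℝ) := NNReal.coe_nonneg _
  have key : dist (fm S v) (fm S v') ≤
      (Fintype.card F : ℝ) ^ (C + ⌈(s : ℝ)⌉₊) * dist v v' ^ (s : ℝ) := by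
    by_cases h : ∃ n, v.digit n ≠ v'.digit n
    · have hd : dist v v' = ((Fintype.card F : ℝ)⁻¹) ^ (Nat.find h + 1) := by
        show distance v v' = _
        unfold distance
        rw [dif_pos h]
      set n := Nat.find h with hn
      have h1 : ∀ k < n, v.digit k = v'.digit k := by
        intro k hk
        by_contra h3
        exact absurd (Nat.find_min' h h3) (by omega)
      have h2 := fm_close S v v' n h1
      rw [Real.dist_eq]
      refine h2.trans ?_
      rw [hd, ← Real.rpow_natCast ((Fintype.card F : ℝ)⁻¹), ← Real.rpow_mul (by positivity),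
        ← Real.rpow_natCast, ← Real.rpow_natCast, ← Real.rpow_neg hq0.le,
        Real.inv_rpow hq0.le, ← Real.rpow_neg hq0.le, ← Real.rpow_add hq0]
      refine Real.rpow_le_rpow_of_exponent_le hq.le ?_
      push_cast
      have h3 := hcount n
      have h4 := Nat.le_ceil (s : ℝ)
      linarith
    · have hv : v = v' := by
        ext k
        by_contra h1
        exact h ⟨k, h1⟩
      rw [hv, dist_self]
      positivity
  rw [edist_dist, edist_dist, ENNReal.ofReal_rpow_of_nonneg dist_nonneg hr0]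
  refine (ENNReal.ofReal_le_ofReal key).trans (le_of_eq ?_)
  rw [ENNReal.ofReal_mul (by positivity), ENNReal.ofReal_pow hq0.le, ENNReal.ofReal_natCast]
  push_cast
  rfl

open Classical in
theorem low (S : Set ℕ) (s : ℝ≥0) (hs : 0 < s) (C : ℕ)
    (hcount : ∀ n : ℕ, (s : ℝ) * n ≤ (Nat.count (fun n => n ∈ S) n : ℝ) + C)
    (E : Set (Torus F)) (hE : ∀ y : ℕ → F, ∃ x ∈ E, ∀ n ∈ S, x.digit n = y n) :
    (s : ℝ≥0∞) ≤ dimH E := by
  have hs0 : (0 : ℝ) < s := by exact_mod_cast hs
  have hS : S.Infinite := by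
    intro hfin
    have hf : {n | n ∈ S}.Finite := hfin
    obtain ⟨n, hn⟩ := exists_nat_gt ((((hf.toFinset.card : ℕ) : ℝ) + C) / s)
    rw [div_lt_iff₀ hs0] at hn
    have h1 := hcount n
    have h2 : (Nat.count (fun n => n ∈ S) n : ℝ) ≤ ((hf.toFinset.card : ℕ) : ℝ) := by
      exact_mod_cast Nat.count_le_card hf n
    nlinarith
  have h1 := ((fm_holder (F := F) S s C hcount).dimH_image_le hs E)
  have h2 : (1 : ℝ≥0∞) ≤ dimH (fm (F := F) S '' E) := by
    refine le_trans ?_ (dimH_mono (fm_surj S hS E hE))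
    have h3 : dimH (Set.Icc (0 : ℝ) 1) = 1 := by
      rw [Real.dimH_of_nonempty_interior]
      · simp
      · rw [interior_Icc]
        exact Set.nonempty_Ioo.2 zero_lt_one
    rw [h3]
  have h4 := h2.trans h1
  rw [ENNReal.le_div_iff_mul_le (Or.inl (by exact_mod_cast hs.ne')) (Or.inl ENNReal.coe_ne_top),
    one_mul] at h4
  exact h4

end Pool.Agent.H599.EX.LBS
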