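import Pool.Agent.H599.EX.FIN
import Pool.Agent.H599.EX.LBS
import Pool.Agent.H599.EX.GN2

set_option autoImplicit false

/-!
# The dimension of the level sets
-/

open Polynomial Filter Topology
open scoped ENNReal NNReal
open Pool.Agent.H599.Tor Pool.Agent.H599.UP Pool.Agent.H599.SP Pool.Agent.H599.PR.FIN

namespace Pool.Agent.H599.EX.LEV

variable {F : Type} [Field F] [Fintype F]

/-- the level set -/
def lev (F : Type) [Field F] [Fintype F] (α : ℝ) : Set (Torus F) :=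
  {x : Torus F | Tor.Irrational x ∧ ∀ (m : ℕ) (A : Fin m → F[X]), (∃ i, 1 ≤ (A i).natDegree) →
    dimH (closure (orbit A x)) = ENNReal.ofReal α}

/-- rich elements supported in `K` are in the level set -/
theorem mem_lev (hLB : S_LB) (hCMP : S_CMP) (hRAT : S_RAT) (p : ℕ) [Fact p.Prime] [CharP F p]
    (α : ℝ) (hα : 0 < α) (K : Set ℕ)
    (hK : ∀ k : ℕ, (({r : ℕ | r < p ^ k ∧ ∃ l, p ^ k * l + r ∈ K}.ncard : ℝ) ≤ α * (p : ℝ) ^ k + 1) ∧
      (α * (p : ℝ) ^ k - 1 ≤ ({r : ℕ | r < p ^ k ∧ ∀ l, p ^ k * l + r ∈ K}.ncard : ℝ)))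
    (x : ℕ → F) (hx1 : ∀ n, n ∉ K → x n = 0)
    (hx2 : ∀ (k : ℕ) (A : F[X]), 1 ≤ A.natDegree → ∀ (L : ℕ) (w : ℕ → F), ∃ e : ℕ,
      ∀ n < L, (∀ l, p ^ k * l + n % p ^ k ∈ K) → Pool.Agent.H599.FF.ml (A ^ e) x n = w n) :
    (⟨x⟩ : Torus F) ∈ lev F α := by
  classical
  have hp : 2 ≤ p := (Fact.out : p.Prime).two_le
  have hdim : ∀ (m : ℕ) (A : Fin m → F[X]), (∃ i, 1 ≤ (A i).natDegree) →
      dimH (closure (orbit A (⟨x⟩ : Torus F))) = ENNReal.ofReal α := by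
    intro m A ⟨i, hi⟩
    apply le_antisymm
    · exact up p α K (fun k => (hK k).1) ⟨x⟩ hx1 m A
    · refine low hLB hCMP p hp α K (fun k => (hK k).2) _ fun k L w => ?_
      obtain ⟨e, he⟩ := hx2 k (A i) hi L w
      refine ⟨_, ⟨Pi.single i e, rfl⟩, fun n hn hnR => ?_⟩
      have hprod : (∏ j, A j ^ (Pi.single i e : Fin m → ℕ) j) = A i ^ e := by
        rw [Finset.prod_eq_single i]
        · rw [Pi.single_eq_same]
        · intro j _ hj
          rw [Pi.single_eq_of_ne hj, pow_zero]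
        · intro h
          exact absurd (Finset.mem_univ i) h
      show (mul (∏ j, A j ^ (Pi.single i e : Fin m → ℕ) j) (⟨x⟩ : Torus F)).digit n = w n
      rw [hprod, mul_digit]
      exact he n hn hnR
  refine ⟨?_, hdim⟩
  intro B hB
  by_contra hcon
  push Not at hcon
  have h2 := hRAT F ⟨x⟩ B hB hcon 1 (fun _ => X)
  rw [hdim 1 (fun _ => X) ⟨0, by rw [natDegree_X]⟩] at h2
  rw [ENNReal.ofReal_eq_zero] at h2
  linarith

lemma count_inst (P : ℕ → Prop) (n : ℕ) (d1 d2 : DecidablePred P) : @Nat.count P d1 n = @Nat.count P d2 n := by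
  rw [Subsingleton.elim d1 d2]

open Classical in
/-- counting the places -/
lemma counting (K K' : Set ℕ) (Q : ℕ) (hQ : 0 < Q) (n : ℕ) :
    {r : ℕ | r < Q ∧ ∀ l, Q * l + r ∈ K}.ncard * (n / Q) ≤
      Nat.count (fun n => n ∈ {n : ℕ | (∀ l, Q * l + n % Q ∈ K) ∧ n ∉ K'}) n +
        {x : ℕ | x < n ∧ x ∈ K'}.ncard := by
  set R : Finset ℕ := (Finset.range Q).filter (fun r => ∀ l, Q * l + r ∈ K) with hR
  have hRc : {r : ℕ | r < Q ∧ ∀ l, Q * l + r ∈ K}.ncard = R.card := by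
    have e : {r : ℕ | r < Q ∧ ∀ l, Q * l + r ∈ K} = (R : Set ℕ) := by
      ext r
      rw [hR]
      simp
    rw [e, Set.ncard_coe_finset]
  have hK'c : {x : ℕ | x < n ∧ x ∈ K'}.ncard = ((Finset.range n).filter (fun x => x ∈ K')).card := by
    have e : {x : ℕ | x < n ∧ x ∈ K'} = (((Finset.range n).filter (fun x => x ∈ K') : Finset ℕ) : Set ℕ) := by
      ext r
      simp
    rw [e, Set.ncard_coe_finset]
  rw [hRc, hK'c, Nat.count_eq_card_filter_range]
  refine le_trans ?_ (Finset.card_union_le _ _)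
  have himg : ((R ×ˢ Finset.range (n / Q)).image (fun z => Q * z.2 + z.1)).card = R.card * (n / Q) := by
    rw [Finset.card_image_of_injOn, Finset.card_product, Finset.card_range]
    rintro ⟨r, l⟩ hz ⟨r', l'⟩ hz' h
    rw [Finset.mem_coe, Finset.mem_product] at hz hz'
    have h1 : r < Q := Finset.mem_range.1 (Finset.mem_filter.1 hz.1).1
    have h2 : r' < Q := Finset.mem_range.1 (Finset.mem_filter.1 hz'.1).1
    simp only at h
    have e1 : (Q * l + r) % Q = r := by rw [Nat.mul_add_mod, Nat.mod_eq_of_lt h1]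
    have e2 : (Q * l' + r') % Q = r' := by rw [Nat.mul_add_mod, Nat.mod_eq_of_lt h2]
    have e3 : (Q * l + r) / Q = l := by rw [Nat.mul_add_div hQ, Nat.div_eq_of_lt h1, add_zero]
    have e4 : (Q * l' + r') / Q = l' := by rw [Nat.mul_add_div hQ, Nat.div_eq_of_lt h2, add_zero]
    rw [h] at e1 e3
    rw [← e1, ← e3, e2, e4]
  rw [← himg]
  apply Finset.card_le_card
  intro x hx
  obtain ⟨⟨r, l⟩, hz, rfl⟩ := Finset.mem_image.1 hx
  rw [Finset.mem_product] at hz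
  have h1 := Finset.mem_filter.1 hz.1
  have h2 : r < Q := Finset.mem_range.1 h1.1
  have h3 : l < n / Q := Finset.mem_range.1 hz.2
  have h4 : Q * l + r < n := by
    have h5 : Q * (l + 1) ≤ Q * (n / Q) := Nat.mul_le_mul_left _ h3
    have h6 := Nat.mul_div_le n Q
    rw [mul_add, mul_one] at h5
    omega
  have e1 : (Q * l + r) % Q = r := by rw [Nat.mul_add_mod, Nat.mod_eq_of_lt h2]
  simp only [Finset.mem_union, Finset.mem_filter, Finset.mem_range, Set.mem_ofPred_eq, e1]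
  by_cases hk : Q * l + r ∈ K'
  · exact Or.inr ⟨h4, hk⟩
  · exact Or.inl ⟨h4, h1.2, hk⟩

/-- the lower bound for the dimension of the level sets -/
theorem level_low (hLB : S_LB) (hCMP : S_CMP) (hKS : S_KS) (hRAT : S_RAT) (α : ℝ) (hα : 0 < α) (h1 : α ≤ 1) :
    ENNReal.ofReal α ≤ dimH (lev F α) := by
  classical
  obtain ⟨p, hpF⟩ := CharP.exists F
  have : Fact p.Prime := ⟨CharP.char_is_prime F p⟩
  have hp : 2 ≤ p := (Fact.out : p.Prime).two_le
  obtain ⟨K, hK⟩ := hKS p hp α hα.le h1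
  obtain ⟨K', hsp, hfree⟩ := Pool.Agent.H599.EX.GN2.main F p K
  have key : ∀ k : ℕ, ENNReal.ofReal (α - 2 * ((p : ℝ) ^ k)⁻¹) ≤ dimH (lev F α) := by
    intro k
    have hpk : (0:ℝ) < (p : ℝ) ^ k := by positivity
    have hQ : 0 < p ^ k := by positivity
    rcases le_or_gt (α - 2 * ((p : ℝ) ^ k)⁻¹) 0 with hneg | hpos
    · rw [ENNReal.ofReal_of_nonpos hneg]
      exact bot_le
    obtain ⟨C, hC⟩ := hsp (p ^ k - 1)
    have hm : p ^ k - 1 + 1 = p ^ k := Nat.sub_add_cancel hQ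
    rw [hm] at hC
    refine Pool.Agent.H599.EX.LBS.low {n : ℕ | (∀ l, p ^ k * l + n % p ^ k ∈ K) ∧ n ∉ K'}
      (Real.toNNReal (α - 2 * ((p : ℝ) ^ k)⁻¹)) (Real.toNNReal_pos.2 hpos) (p ^ k + C) ?_ (lev F α) ?_
    · intro n
      rw [Real.coe_toNNReal _ hpos.le]
      have h2 := counting K K' (p ^ k) hQ n
      have h3 := hC n
      set g := {r : ℕ | r < p ^ k ∧ ∀ l, p ^ k * l + r ∈ K}.ncard with hg
      have hgQ : g ≤ p ^ k := by
        have h4 : {r : ℕ | r < p ^ k ∧ ∀ l, p ^ k * l + r ∈ K} ⊆ ((Finset.range (p ^ k) : Finset ℕ) : Set ℕ) := by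
          rintro r ⟨hr, -⟩
          simpa using hr
        have h5 := Set.ncard_le_ncard h4 (Finset.finite_toSet _)
        rwa [Set.ncard_coe_finset, Finset.card_range] at h5
      have h6 := (hK k).2
      rw [← hg] at h6
      set cS := Nat.count (fun n => n ∈ {n : ℕ | (∀ l, p ^ k * l + n % p ^ k ∈ K) ∧ n ∉ K'}) n with hcS
      set cK := {x : ℕ | x < n ∧ x ∈ K'}.ncard with hcK
      have h7 : n < p ^ k * (n / p ^ k + 1) := Nat.lt_mul_div_succ n hQ
      -- real numbers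
      have r2 : (g : ℝ) * ((n / p ^ k : ℕ) : ℝ) ≤ cS + cK := by exact_mod_cast h2
      have r3 : (p : ℝ) ^ k * cK ≤ n + C := by exact_mod_cast h3
      have r4 : (g : ℝ) ≤ (p : ℝ) ^ k := by exact_mod_cast hgQ
      have r7 : (n : ℝ) ≤ (p : ℝ) ^ k * (((n / p ^ k : ℕ) : ℝ) + 1) := by exact_mod_cast h7.le
      have hpk1 : (1 : ℝ) ≤ (p : ℝ) ^ k := one_le_pow₀ (by exact_mod_cast (by omega : 1 ≤ p))
      -- multiply by `p ^ k`
      have hn0 : (0 : ℝ) ≤ n := Nat.cast_nonneg n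
      have hC0 : (0 : ℝ) ≤ C := Nat.cast_nonneg C
      have hg0 : (0 : ℝ) ≤ g := Nat.cast_nonneg g
      have e1 : (α - 2 * ((p : ℝ) ^ k)⁻¹) * n * (p : ℝ) ^ k = (α * (p : ℝ) ^ k - 1) * n - n := by
        field_simp
        ring
      have e2 : (α * (p : ℝ) ^ k - 1) * n ≤ g * n := mul_le_mul_of_nonneg_right h6 hn0
      have e3 : (g : ℝ) * n ≤ g * ((p : ℝ) ^ k * (((n / p ^ k : ℕ) : ℝ) + 1)) := mul_le_mul_of_nonneg_left r7 hg0
      have e4 : (g : ℝ) * ((p : ℝ) ^ k * (((n / p ^ k : ℕ) : ℝ) + 1)) =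
          (p : ℝ) ^ k * (g * ((n / p ^ k : ℕ) : ℝ)) + (p : ℝ) ^ k * g := by ring
      have e5 : (p : ℝ) ^ k * (g * ((n / p ^ k : ℕ) : ℝ)) ≤ (p : ℝ) ^ k * (cS + cK) :=
        mul_le_mul_of_nonneg_left r2 hpk.le
      have e6 : (p : ℝ) ^ k * g ≤ (p : ℝ) ^ k * (p : ℝ) ^ k := mul_le_mul_of_nonneg_left r4 hpk.le
      have e7 : (C : ℝ) ≤ (p : ℝ) ^ k * C := le_mul_of_one_le_left hC0 hpk1
      have e8 : (α - 2 * ((p : ℝ) ^ k)⁻¹) * n * (p : ℝ) ^ k ≤ (cS + ((p : ℝ) ^ k + C)) * (p : ℝ) ^ k := by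
        rw [e1]
        have : (cS + ((p : ℝ) ^ k + C)) * (p : ℝ) ^ k = (p : ℝ) ^ k * cS + (p : ℝ) ^ k * (p : ℝ) ^ k +
          (p : ℝ) ^ k * C := by ring
        rw [this]
        have e9 : (p : ℝ) ^ k * (cS + cK) = (p : ℝ) ^ k * cS + (p : ℝ) ^ k * cK := by ring
        linarith
      have e10 := le_of_mul_le_mul_right e8 hpk
      push_cast
      refine e10.trans (le_of_eq ?_)
      rw [hcS]
      exact congrArg (fun z : ℕ => (z : ℝ) + ((p : ℝ) ^ k + C)) (count_inst _ n _ _)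
    · intro y
      obtain ⟨x, hx1, hx2, hx3⟩ := hfree (fun n => if n ∈ K then y n else 0) (fun n hn => if_neg hn)
      refine ⟨⟨x⟩, mem_lev hLB hCMP hRAT p α hα K hK x hx1 hx3, ?_⟩
      rintro n ⟨hn1, hn2⟩
      have hnK : n ∈ K := by
        have := hn1 (n / p ^ k)
        rwa [Nat.div_add_mod] at this
      show x n = y n
      rw [hx2 n hn2, if_pos hnK]
  have h2 : Tendsto (fun k : ℕ => ENNReal.ofReal (α - 2 * ((p : ℝ) ^ k)⁻¹)) atTop
      (𝓝 (ENNReal.ofReal (α - 2 * 0))) := by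
    apply ENNReal.tendsto_ofReal
    apply Tendsto.const_sub
    apply Tendsto.const_mul
    exact (tendsto_pow_atTop_atTop_of_one_lt (by exact_mod_cast (by omega : 1 < p))).inv_tendsto_atTop
  have h3 := le_of_tendsto' h2 key
  rwa [mul_zero, sub_zero] at h3

/-- the dimension of the level sets -/
theorem level (hLB : S_LB) (hCMP : S_CMP) (hKS : S_KS) (hRAT : S_RAT) (hFUR : S_FUR) (hYW : S_YW)
    (α : ℝ) (h0 : 0 ≤ α) (h1 : α ≤ 1) : dimH (lev F α) = ENNReal.ofReal α := by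
  apply le_antisymm
  · apply le_of_forall_gt_imp_ge_of_dense
    intro s' hs'
    rcases eq_or_ne s' ⊤ with rfl | hne
    · exact le_top
    lift s' to ℝ≥0 using hne
    refine le_trans (dimH_mono ?_) (Pool.Agent.H599.EX.FIN.upper_one (F := F) hFUR hYW X (by simp) s')
    intro x hx
    have h2 := hx.2 1 (fun _ => X) ⟨0, by simp⟩
    rw [orbit_one] at h2
    show dimH (closure (orb X x)) < s'
    rw [h2]
    exact hs'
  · rcases eq_or_lt_of_le h0 with rfl | hα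
    · simp
    · exact level_low hLB hCMP hKS hRAT α hα h1

end Pool.Agent.H599.EX.LEV
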