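import Mathlib
import Pool.Agent.H525.EX.Stm2

/-!
# Project EX (helper525), task REF: reflection of the weights
-/

namespace Pool.Agent.H599.EX

open Polynomial UniqueFactorizationMonoid
open Pool.Agent.H985.Chow (mob)
open Pool.Agent.H525.QF
open Pool.Agent.H525.EX
open scoped Classical

lemma reflect_expand (d N : ℕ) (hd : 0 < d) (f : ℝ[X]) :
    (expand ℝ d f).reflect (d * N) = expand ℝ d (f.reflect N) := by
  ext n
  rw [coeff_reflect, coeff_expand hd, coeff_expand hd]
  by_cases hdn : d ∣ n
  · obtain ⟨k, rfl⟩ := hdn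
    rw [if_pos (Dvd.intro k rfl), Nat.mul_div_cancel_left _ hd, coeff_reflect]
    by_cases hk : k ≤ N
    · rw [revAt_le (Nat.mul_le_mul_left d hk), revAt_le hk, ← Nat.mul_sub,
        if_pos (Dvd.intro _ rfl), Nat.mul_div_cancel_left _ hd]
    · have h1 : ¬ d * k ≤ d * N := fun h => hk (Nat.le_of_mul_le_mul_left h hd)
      rw [revAt_eq_self_of_lt (not_le.1 h1), revAt_eq_self_of_lt (not_le.1 hk),
        if_pos (Dvd.intro _ rfl), Nat.mul_div_cancel_left _ hd]
  · rw [if_neg hdn]
    by_cases hk : n ≤ d * N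
    · rw [revAt_le hk, if_neg]
      intro h
      exact hdn ((Nat.dvd_sub_iff_right hk (Dvd.intro _ rfl)).1 h)
    · rw [revAt_eq_self_of_lt (not_le.1 hk), if_neg hdn]

lemma prod_reflect {ι : Type} (S : Finset ι) (f : ι → ℝ[X]) (n : ι → ℕ)
    (h : ∀ i ∈ S, (f i).natDegree ≤ n i) :
    (∏ i ∈ S, f i).natDegree ≤ ∑ i ∈ S, n i ∧
      (∏ i ∈ S, f i).reflect (∑ i ∈ S, n i) = ∏ i ∈ S, (f i).reflect (n i) := by
  induction S using Finset.induction_on with
  | empty =>
    simp only [Finset.prod_empty, Finset.sum_empty, natDegree_one, le_refl, true_and]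
    rw [← C_1, reflect_C]
    simp
  | insert i S hi ih =>
    obtain ⟨h1, h2⟩ := ih fun j hj => h j (Finset.mem_insert_of_mem hj)
    have h3 := h i (Finset.mem_insert_self _ _)
    rw [Finset.prod_insert hi, Finset.sum_insert hi, Finset.prod_insert hi,
      reflect_mul _ _ h3 h1, h2]
    exact ⟨natDegree_mul_le.trans (add_le_add h3 h1), rfl⟩

lemma count_sum {α : Type} [DecidableEq α] (s : Multiset α) (S : Finset α) (h : s.toFinset ⊆ S) (f : α → ℕ) :
    ∑ P ∈ S, s.count P * f P = (s.map f).sum := by
  rw [Finset.sum_multiset_map_count, ← Finset.sum_subset h]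
  · exact Finset.sum_congr rfl fun P _ => by rw [smul_eq_mul]
  · intro P _ hP
    rw [Multiset.mem_toFinset] at hP
    rw [Multiset.count_eq_zero_of_notMem hP, zero_mul]

lemma deg_sum {K : Type} [Field K] {G : K[X]} (hG : G.Monic) :
    ((normalizedFactors G).map natDegree).sum = G.natDegree := by
  have h0 : (0 : K[X]) ∉ normalizedFactors G := zero_notMem_normalizedFactors G
  rw [← natDegree_multiset_prod _ h0]
  have h1 : (normalizedFactors G).prod = G := by
    rw [prod_normalizedFactors_eq, hG.normalize_eq_self]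
    exact hG.ne_zero
  rw [h1]

theorem t_ref : S_ref := by
  intro K _ _ η h hh G F₀ hG hF hsq
  set nG := normalizedFactors G with hnG
  set nF := normalizedFactors F₀ with hnF
  have hM : normalizedFactors (G ^ 2 * F₀) = 2 • nG + nF := by
    rw [normalizedFactors_mul (pow_ne_zero 2 hG.ne_zero) hF.ne_zero, normalizedFactors_pow]
  have hnd : nF.Nodup := (squarefree_iff_nodup_normalizedFactors hF.ne_zero).1 hsq
  set S := (normalizedFactors (G ^ 2 * F₀)).toFinset with hS
  have hSG : nG.toFinset ⊆ S := by
    intro P hP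
    rw [Multiset.mem_toFinset] at hP
    rw [hS, hM, Multiset.mem_toFinset, Multiset.mem_add]
    left
    rw [two_nsmul, Multiset.mem_add]
    exact Or.inl hP
  have hSF : nF.toFinset ⊆ S := by
    intro P hP
    rw [Multiset.mem_toFinset] at hP
    rw [hS, hM, Multiset.mem_toFinset, Multiset.mem_add]
    exact Or.inr hP
  have hcnt : ∀ P, (normalizedFactors (G ^ 2 * F₀)).count P = 2 * nG.count P + nF.count P := by
    intro P
    rw [hM, Multiset.count_add, Multiset.count_nsmul]
  have hc1 : ∀ P, nF.count P ≤ 1 := fun P => Multiset.nodup_iff_count_le_one.1 hnd P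
  have hirr : ∀ P ∈ S, 0 < P.natDegree := by
    intro P hP
    rw [hS, Multiset.mem_toFinset] at hP
    exact (irreducible_of_normalized_factor P hP).natDegree_pos
  have hW : W h (G ^ 2 * F₀) = ∏ P ∈ S, expand ℝ P.natDegree (h P (2 * nG.count P + nF.count P)) :=
    Finset.prod_congr rfl fun P _ => by rw [hcnt]
  have hloc : ∀ P, (h P (2 * nG.count P + nF.count P)).natDegree ≤ 4 * nG.count P + nF.count P ∧
      (h P (2 * nG.count P + nF.count P)).reflect (4 * nG.count P + nF.count P) =
        C ((-1) ^ (nF.count P) * (η ^ P.natDegree) ^ (nG.count P)) *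
          h P (2 * nG.count P + nF.count P) := by
    intro P
    have h1 := hh P (2 * nG.count P + nF.count P)
    have h2 := hc1 P
    have h3 : (2 * nG.count P + nF.count P) / 2 = nG.count P := by omega
    have h4 : (2 * nG.count P + nF.count P) % 2 = nF.count P := by omega
    rw [h3, h4] at h1
    exact h1
  obtain ⟨h1, h2⟩ := prod_reflect S
    (fun P => expand ℝ P.natDegree (h P (2 * nG.count P + nF.count P)))
    (fun P => P.natDegree * (4 * nG.count P + nF.count P)) (by
      intro P hP
      rw [natDegree_expand, mul_comm]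
      exact Nat.mul_le_mul_left _ (hloc P).1)
  have hdG : ∑ P ∈ S, nG.count P * P.natDegree = G.natDegree := by
    rw [count_sum nG S hSG natDegree, deg_sum hG]
  have hdF : ∑ P ∈ S, nF.count P * P.natDegree = F₀.natDegree := by
    rw [count_sum nF S hSF natDegree, deg_sum hF]
  have hcF : ∑ P ∈ S, nF.count P = nF.card := by
    have := count_sum nF S hSF (fun _ => 1)
    simpa using this
  have hdeg : ∑ P ∈ S, P.natDegree * (4 * nG.count P + nF.count P) =
      4 * G.natDegree + F₀.natDegree := by
    rw [← hdG, ← hdF, Finset.mul_sum, ← Finset.sum_add_distrib]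
    exact Finset.sum_congr rfl fun P _ => by ring
  rw [hdeg] at h1 h2
  rw [hW]
  refine ⟨h1, ?_⟩
  rw [h2]
  have h3 : ∀ P ∈ S, (expand ℝ P.natDegree (h P (2 * nG.count P + nF.count P))).reflect
      (P.natDegree * (4 * nG.count P + nF.count P)) =
        C ((-1) ^ (nF.count P) * η ^ (nG.count P * P.natDegree)) *
          expand ℝ P.natDegree (h P (2 * nG.count P + nF.count P)) := by
    intro P hP
    rw [reflect_expand _ _ (hirr P hP), (hloc P).2, map_mul, expand_C, ← pow_mul,
      mul_comm P.natDegree]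
  rw [Finset.prod_congr rfl h3, Finset.prod_mul_distrib, ← map_prod, Finset.prod_mul_distrib,
    Finset.prod_pow_eq_pow_sum, Finset.prod_pow_eq_pow_sum, hcF, hdG]
  have h4 : (mob F₀ : ℝ) = (-1) ^ nF.card := by
    unfold mob
    rw [if_pos hsq, hnF, normalizedFactors, Multiset.card_map]
    push_cast
    rfl
  rw [h4]

end Pool.Agent.H599.EX
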