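import Pool.Agent.H599.Tor

set_option autoImplicit false

/-!
# Statements: the dimension of the exceptional set
-/

open Polynomial Filter Topology
open scoped ENNReal NNReal
open Pool.Agent.H599.Tor

namespace Pool.Agent.H599.EX

/-- FUR: a closed set invariant under a nonconstant polynomial of Hausdorff dimension less than `s` has fewer than
`q ^ (s d n)` words of length `d n` for some `n` -/
def S_FUR : Prop := ∀ (F : Type) [Field F] [Fintype F] (A : F[X]), 1 ≤ A.natDegree → ∀ X : Set (Torus F),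
  IsClosed X → (∀ x ∈ X, mul A x ∈ X) → ∀ s : ℝ≥0, dimH X < s → ∃ n : ℕ, 1 ≤ n ∧
    ((words (A.natDegree * n) X).ncard : ℝ) < (Fintype.card F : ℝ) ^ ((s : ℝ) * (A.natDegree * n : ℕ))

/-- YW: the points whose orbit begins with words of `W` only -/
def S_YW : Prop := ∀ (F : Type) [Field F] [Fintype F] (A : F[X]), 1 ≤ A.natDegree → ∀ (n : ℕ), 1 ≤ n →
  ∀ (W : Set (Fin (A.natDegree * n) → F)) (s : ℝ≥0),
    (W.ncard : ℝ) < (Fintype.card F : ℝ) ^ ((s : ℝ) * (A.natDegree * n : ℕ)) →
    dimH {x : Torus F | ∀ m : ℕ, (fun i : Fin (A.natDegree * n) => (mul (A ^ m) x).digit i) ∈ W} ≤ s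

end Pool.Agent.H599.EX
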